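import Pool.Agent.CGS.Defs

/-!
# Components of proper systems are algebraic
-/

namespace CGS

open Polynomial KaehlerDifferential

/-- If every derivation kills the generators of a finitely generated field extension in
characteristic zero, the generators are algebraic. -/
lemma algebraic_of_derivations {K M : Type} [Field K] [CharZero K] [Field M] [Algebra K M]
    {σ : Type} [Finite σ] (x : σ → M)
    (h : ∀ δ : Derivation K (IntermediateField.adjoin K (Set.range x)) M,
      ∀ i, δ ⟨x i, IntermediateField.subset_adjoin _ _ ⟨i, rfl⟩⟩ = 0) (i : σ) :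
    IsAlgebraic K (x i) := by
  set E := IntermediateField.adjoin K (Set.range x) with hE
  -- every derivation vanishes
  have h1 : ∀ δ : Derivation K E M, δ = 0 := by
    intro δ
    ext ⟨e, he⟩
    simp only [Derivation.coe_zero, Pi.zero_apply]
    induction he using IntermediateField.adjoin_induction with
    | mem y hy =>
      obtain ⟨j, rfl⟩ := hy
      exact h δ j
    | algebraMap y =>
      have : (⟨algebraMap K M y, E.algebraMap_mem y⟩ : E) = algebraMap K E y := rfl
      rw [this]
      exact δ.map_algebraMap y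
    | add a b ha hb iha ihb =>
      have : (⟨a + b, add_mem ha hb⟩ : E) = ⟨a, ha⟩ + ⟨b, hb⟩ := rfl
      rw [this, map_add, iha, ihb, add_zero]
    | inv a ha iha =>
      have : (⟨a⁻¹, inv_mem ha⟩ : E) = (⟨a, ha⟩ : E)⁻¹ := rfl
      rw [this, Derivation.leibniz_inv, iha, smul_zero]
    | mul a b ha hb iha ihb =>
      have : (⟨a * b, mul_mem ha hb⟩ : E) = ⟨a, ha⟩ * ⟨b, hb⟩ := rfl
      rw [this, Derivation.leibniz, iha, ihb, smul_zero, smul_zero, add_zero]
  -- the differentials vanish
  have h2 : Subsingleton (Ω[E⁄K]) := by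
    rw [← not_nontrivial_iff_subsingleton]
    intro hnt
    obtain ⟨ω, hω⟩ := exists_ne (0 : Ω[E⁄K])
    obtain ⟨f, hf⟩ : ∃ f : Module.Dual E (Ω[E⁄K]), f ω ≠ 0 := by
      by_contra hcon
      push Not at hcon
      exact hω ((Module.forall_dual_apply_eq_zero_iff E ω).1 hcon)
    set δ : Derivation K E E := f.compDer (KaehlerDifferential.D K E) with hδ
    have h3 : ∀ e, δ e = 0 := by
      intro e
      have h4 := h1 ((Algebra.linearMap E M).compDer δ)
      have h5 := congrArg (fun d => d e) h4
      simp only [Derivation.coe_zero, Pi.zero_apply] at h5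
      have h6 : (algebraMap E M) (δ e) = 0 := h5
      exact (map_eq_zero _).1 h6
    have h7 : f = 0 := by
      apply Derivation.liftKaehlerDifferential_unique
      refine Derivation.ext fun e => ?_
      exact h3 e
    exact hf (by rw [h7]; rfl)
  have h3 : Algebra.FormallyUnramified K E := ⟨h2⟩
  have h4 : Algebra.EssFiniteType K E := by
    rw [IntermediateField.essFiniteType_iff]
    exact IntermediateField.fg_adjoin_of_finite (Set.finite_range x)
  have h5 := Algebra.FormallyUnramified.isSeparable K E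
  have h6 : IsAlgebraic K (⟨x i, IntermediateField.subset_adjoin _ _ ⟨i, rfl⟩⟩ : E) :=
    Algebra.IsAlgebraic.isAlgebraic _
  exact h6.algebraMap

lemma mat_mul_mem {E : Type} [CommRing E] {ι : Type} [Fintype ι] (O : Subring E)
    {U V : Matrix ι ι E} (hU : ∀ p q, U p q ∈ O) (hV : ∀ p q, V p q ∈ O) (p q : ι) :
    (U * V) p q ∈ O := by
  rw [Matrix.mul_apply]
  exact O.sum_mem fun m _ => O.mul_mem (hU p m) (hV m q)

lemma mat_mul_mem_right {E : Type} [CommRing E] {ι : Type} [Fintype ι] (O : Subring E)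
    (J : AddSubgroup E) (hJ : ∀ a ∈ O, ∀ b ∈ J, a * b ∈ J)
    {U V : Matrix ι ι E} (hU : ∀ p q, U p q ∈ O) (hV : ∀ p q, V p q ∈ J) (p q : ι) :
    (U * V) p q ∈ J := by
  rw [Matrix.mul_apply]
  exact J.sum_mem fun m _ => hJ _ (hU p m) _ (hV m q)

lemma mat_mul_mem_left {E : Type} [CommRing E] {ι : Type} [Fintype ι] (O : Subring E)
    (J : AddSubgroup E) (hJ : ∀ a ∈ O, ∀ b ∈ J, a * b ∈ J)
    {U V : Matrix ι ι E} (hU : ∀ p q, U p q ∈ J) (hV : ∀ p q, V p q ∈ O) (p q : ι) :
    (U * V) p q ∈ J := by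
  rw [Matrix.mul_apply]
  exact J.sum_mem fun m _ => by rw [mul_comm]; exact hJ _ (hV m q) _ (hU p m)

lemma mat_list {E : Type} [CommRing E] {ι : Type} [Fintype ι] [DecidableEq ι] (O : Subring E)
    (J : AddSubgroup E) (hJ : ∀ a ∈ O, ∀ b ∈ J, a * b ∈ J) (l : List (Matrix ι ι E))
    (hO : ∀ U ∈ l, ∀ p q, U p q ∈ O) :
    (∀ p q, l.prod p q ∈ O) ∧ ((∃ U ∈ l, ∀ p q, U p q ∈ J) → ∀ p q, l.prod p q ∈ J) := by
  induction l with
  | nil =>
    refine ⟨fun p q => ?_, fun h => by simp at h⟩
    rw [List.prod_nil, Matrix.one_apply]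
    split_ifs
    · exact O.one_mem
    · exact O.zero_mem
  | cons U l ih =>
    obtain ⟨h1, h2⟩ := ih fun V hV => hO V (by simp [hV])
    have hU := hO U (by simp)
    rw [List.prod_cons]
    refine ⟨mat_mul_mem O hU h1, ?_⟩
    rintro ⟨V, hV, hVJ⟩
    rcases List.mem_cons.1 hV with rfl | hV
    · exact mat_mul_mem_left O J hJ hVJ h1
    · exact mat_mul_mem_right O J hJ hU (h2 ⟨V, hV, hVJ⟩)

/-- The entries of the images of the components of a proper system are algebraic. -/
lemma algebraic_of_system {R : Type} [Ring R] {k : Type} [Field k]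
    {K M : Type} [Field K] [CharZero K] [Field M] [Algebra K M] [Algebra (PowerSeries k) M]
    (c : k[X] →+* K)
    (hc : ∀ q : k[X], algebraMap K M (c q) = algebraMap (PowerSeries k) M (q : PowerSeries k))
    {ι : Type} [Fintype ι] [DecidableEq ι] (Θ : PowerSeries R →+* Matrix ι ι (PowerSeries k))
    (hΘ : ∀ (p : Polynomial R) (i j : ι), ∃ q : Polynomial k,
      Θ (p : PowerSeries R) i j = (q : PowerSeries k) ∧ (p.coeff 0 = 0 → q.coeff 0 = 0))
    {n : ℕ} (Q : Fin (n + 1) → List (Mono R (n + 1))) (A : Fin (n + 1) → PowerSeries R)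
    (hQ : ∀ i, ∀ m ∈ Q i, m.Proper) (hA : ∀ i, A i = ((Q i).map (Mono.eval A)).sum)
    (j0 : Fin (n + 1)) (p0 q0 : ι) :
    IsAlgebraic K (algebraMap (PowerSeries k) M (Θ (A j0) p0 q0)) := by
  classical
  set x : Fin (n + 1) × ι × ι → M :=
    fun s => algebraMap (PowerSeries k) M (Θ (A s.1) s.2.1 s.2.2) with hx
  refine algebraic_of_derivations x ?_ (j0, p0, q0)
  set E := IntermediateField.adjoin K (Set.range x) with hE
  intro δ
  set y : Fin (n + 1) × ι × ι → E :=
    fun s => ⟨x s, IntermediateField.subset_adjoin _ _ ⟨s, rfl⟩⟩ with hy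
  set W : Submodule (PowerSeries k) M :=
    Submodule.span (PowerSeries k) (Set.range fun s => δ (y s)) with hW
  set I : Ideal (PowerSeries k) := Ideal.span {PowerSeries.X} with hI
  -- it suffices to show that everything lies in `I • W`
  suffices key : ∀ s, δ (y s) ∈ I • W by
    have h1 : W ≤ I • W := by
      rw [hW, Submodule.span_le]
      rintro _ ⟨s, rfl⟩
      exact key s
    have h2 : W = ⊥ := by
      refine Submodule.eq_bot_of_le_smul_of_le_jacobson_bot I W
        (Submodule.fg_span (Set.finite_range _)) h1 ?_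
      rw [hI, ← PowerSeries.maximalIdeal_eq_span_X]
      exact IsLocalRing.maximalIdeal_le_jacobson _
    intro s
    have h3 : δ (y s) ∈ W := Submodule.subset_span ⟨s, rfl⟩
    rw [h2, Submodule.mem_bot] at h3
    exact h3
  have hsmul : ∀ (e : E) (a : PowerSeries k) (v : M), algebraMap (PowerSeries k) M a = (e : M) →
      e • v = a • v := by
    intro e a v h
    rw [Algebra.smul_def, Algebra.smul_def, h]
    rfl
  -- the subring `O` and the ideal `J`
  let O : Subring E :=
    { carrier := {e | (∃ a, algebraMap (PowerSeries k) M a = (e : M)) ∧ δ e ∈ W}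
      one_mem' := by
        refine ⟨⟨1, by simp⟩, ?_⟩
        rw [Derivation.map_one_eq_zero]; exact W.zero_mem
      zero_mem' := by
        refine ⟨⟨0, by simp⟩, ?_⟩
        rw [map_zero]; exact W.zero_mem
      add_mem' := by
        rintro e e' ⟨⟨a, ha⟩, h⟩ ⟨⟨a', ha'⟩, h'⟩
        refine ⟨⟨a + a', by rw [map_add, ha, ha']; rfl⟩, ?_⟩
        rw [map_add]; exact W.add_mem h h'
      neg_mem' := by
        rintro e ⟨⟨a, ha⟩, h⟩
        refine ⟨⟨-a, by rw [map_neg, ha]; rfl⟩, ?_⟩
        rw [map_neg]; exact W.neg_mem h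
      mul_mem' := by
        rintro e e' ⟨⟨a, ha⟩, h⟩ ⟨⟨a', ha'⟩, h'⟩
        refine ⟨⟨a * a', by rw [map_mul, ha, ha']; rfl⟩, ?_⟩
        rw [Derivation.leibniz, hsmul e a _ ha, hsmul e' a' _ ha']
        exact W.add_mem (W.smul_mem _ h') (W.smul_mem _ h) }
  let J : AddSubgroup E :=
    { carrier := {e | (∃ a ∈ I, algebraMap (PowerSeries k) M a = (e : M)) ∧ δ e ∈ I • W}
      zero_mem' := by
        refine ⟨⟨0, I.zero_mem, by simp⟩, ?_⟩
        rw [map_zero]; exact Submodule.zero_mem _
      add_mem' := by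
        rintro e e' ⟨⟨a, haI, ha⟩, h⟩ ⟨⟨a', haI', ha'⟩, h'⟩
        refine ⟨⟨a + a', I.add_mem haI haI', by rw [map_add, ha, ha']; rfl⟩, ?_⟩
        rw [map_add]; exact Submodule.add_mem _ h h'
      neg_mem' := by
        rintro e ⟨⟨a, haI, ha⟩, h⟩
        refine ⟨⟨-a, I.neg_mem haI, by rw [map_neg, ha]; rfl⟩, ?_⟩
        rw [map_neg]; exact Submodule.neg_mem _ h }
  have hOmem : ∀ e : E, e ∈ O ↔ (∃ a, algebraMap (PowerSeries k) M a = (e : M)) ∧ δ e ∈ W :=
    fun e => Iff.rfl
  have hJmem : ∀ e : E, e ∈ J ↔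
      (∃ a ∈ I, algebraMap (PowerSeries k) M a = (e : M)) ∧ δ e ∈ I • W := fun e => Iff.rfl
  have hOJ : ∀ a ∈ O, ∀ b ∈ J, a * b ∈ J := by
    rintro e ⟨⟨a, ha⟩, h⟩ e' ⟨⟨a', haI', ha'⟩, h'⟩
    refine ⟨⟨a * a', I.mul_mem_left _ haI', by rw [map_mul, ha, ha']; rfl⟩, ?_⟩
    rw [Derivation.leibniz, hsmul e a _ ha, hsmul e' a' _ ha']
    exact Submodule.add_mem _ (Submodule.smul_mem _ _ h') (Submodule.smul_mem_smul haI' h)
  -- constants
  have hconst : ∀ q : k[X], algebraMap K E (c q) ∈ O := by
    intro q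
    refine ⟨⟨(q : PowerSeries k), (hc q).symm⟩, ?_⟩
    rw [Derivation.map_algebraMap]; exact W.zero_mem
  have hconstJ : ∀ q : k[X], q.coeff 0 = 0 → algebraMap K E (c q) ∈ J := by
    intro q hq
    refine ⟨⟨(q : PowerSeries k), ?_, (hc q).symm⟩, ?_⟩
    · rw [hI, Ideal.mem_span_singleton, PowerSeries.X_dvd_iff]
      exact hq
    · rw [Derivation.map_algebraMap]; exact Submodule.zero_mem _
  -- the matrices
  choose qq hqq hqq0 using hΘ
  let L : Polynomial R → Matrix ι ι E := fun f => Matrix.of fun p q => algebraMap K E (c (qq f p q))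
  let Y : Fin (n + 1) → Matrix ι ι E := fun j => Matrix.of fun p q => y (j, p, q)
  have hLO : ∀ f p q, L f p q ∈ O := fun f p q => hconst _
  have hLJ : ∀ f : Polynomial R, f.coeff 0 = 0 → ∀ p q, L f p q ∈ J :=
    fun f hf p q => hconstJ _ (hqq0 f p q hf)
  have hYO : ∀ j p q, Y j p q ∈ O := by
    intro j p q
    exact ⟨⟨Θ (A j) p q, rfl⟩, Submodule.subset_span ⟨(j, p, q), rfl⟩⟩
  let ΘM : PowerSeries R →+* Matrix ι ι M := (algebraMap (PowerSeries k) M).mapMatrix.comp Θ
  let φ : Matrix ι ι E →+* Matrix ι ι M := (algebraMap E M).mapMatrix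
  have hφinj : Function.Injective φ := by
    intro U V h
    ext p q
    have := congrFun (congrFun h p) q
    exact this
  have hφL : ∀ f : Polynomial R, φ (L f) = ΘM (f : PowerSeries R) := by
    intro f
    ext p q
    change algebraMap E M (algebraMap K E (c (qq f p q))) =
      algebraMap (PowerSeries k) M (Θ (f : PowerSeries R) p q)
    rw [hqq f p q, ← hc, ← IsScalarTower.algebraMap_apply]
  have hφY : ∀ j, φ (Y j) = ΘM (A j) := by
    intro j
    ext p q
    rfl
  let evM : Mono R (n + 1) → Matrix ι ι E := fun m =>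
    L m.c0 * (m.tail.map fun p => Y p.1 * L p.2).prod
  have hφev : ∀ m : Mono R (n + 1), φ (evM m) = ΘM (m.eval A) := by
    intro m
    rw [Mono.eval, map_mul, map_mul, hφL, map_list_prod, map_list_prod, List.map_map, List.map_map]
    congr 3
    funext p
    simp only [Function.comp_apply, map_mul, hφL, hφY]
  have hYeq : ∀ i, Y i = ((Q i).map evM).sum := by
    intro i
    apply hφinj
    rw [hφY, hA i, map_list_sum, map_list_sum, List.map_map, List.map_map]
    congr 2
    funext m
    exact (hφev m).symm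
  have hmono : ∀ m : Mono R (n + 1), m.Proper → ∀ p q, δ (evM m p q) ∈ I • W := by
    intro m hm p q
    rcases hm with h | h | ⟨t, ht, h⟩
    · have : evM m = L m.c0 := by
        simp only [evM, h, List.map_nil, List.prod_nil, mul_one]
      rw [this]
      change δ (algebraMap K E (c (qq m.c0 p q))) ∈ I • W
      rw [Derivation.map_algebraMap]; exact Submodule.zero_mem _
    · have hl := (mat_list O J hOJ (L m.c0 :: m.tail.map fun p => Y p.1 * L p.2) (by
        intro U hU
        rcases List.mem_cons.1 hU with rfl | hU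
        · exact hLO _
        · obtain ⟨s, -, rfl⟩ := List.mem_map.1 hU
          exact mat_mul_mem O (hYO _) (hLO _))).2 ⟨L m.c0, by simp, hLJ _ h⟩ p q
      rw [List.prod_cons] at hl
      exact hl.2
    · have hl := (mat_list O J hOJ (L m.c0 :: m.tail.map fun p => Y p.1 * L p.2) (by
        intro U hU
        rcases List.mem_cons.1 hU with rfl | hU
        · exact hLO _
        · obtain ⟨s, -, rfl⟩ := List.mem_map.1 hU
          exact mat_mul_mem O (hYO _) (hLO _))).2 ⟨Y t.1 * L t.2, by
            rw [List.mem_cons]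
            exact Or.inr (List.mem_map.2 ⟨t, ht, rfl⟩),
            mat_mul_mem_right O J hOJ (hYO _) (hLJ _ h)⟩ p q
      rw [List.prod_cons] at hl
      exact hl.2
  rintro ⟨i, p, q⟩
  have hfin : ∀ l : List (Mono R (n + 1)), (∀ m ∈ l, m.Proper) →
      δ ((l.map evM).sum p q) ∈ I • W := by
    intro l
    induction l with
    | nil =>
      intro _
      simp only [List.map_nil, List.sum_nil, Matrix.zero_apply, map_zero]
      exact Submodule.zero_mem _
    | cons m l ih =>
      intro hl
      rw [List.map_cons, List.sum_cons, Matrix.add_apply, map_add]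
      exact Submodule.add_mem _ (hmono m (hl m (by simp)) p q)
        (ih fun m' hm' => hl m' (by simp [hm']))
  have : y (i, p, q) = ((Q i).map evM).sum p q := by
    rw [← hYeq i]; rfl
  rw [this]
  exact hfin (Q i) (hQ i)

lemma isAlgebraic_entry_aux {R : Type} [Ring R] {k : Type} [Field k] [CharZero k]
    {M : Type} [Field M] [Algebra (PowerSeries k) M]
    (hinj : Function.Injective (algebraMap (PowerSeries k) M))
    {ι : Type} [Fintype ι] [DecidableEq ι] (Θ : PowerSeries R →+* Matrix ι ι (PowerSeries k))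
    (hΘ : ∀ (p : Polynomial R) (i j : ι), ∃ q : Polynomial k,
      Θ (p : PowerSeries R) i j = (q : PowerSeries k) ∧ (p.coeff 0 = 0 → q.coeff 0 = 0))
    {F : PowerSeries R} (hF : IsAlgebraicSeries F) (i j : ι) :
    ∃ P : Polynomial (Polynomial k), P ≠ 0 ∧
      P.eval₂ (Polynomial.coeToPowerSeries.ringHom) (Θ F i j) = 0 := by
  obtain ⟨n, Q, A, hQ, hA, rfl⟩ := hF
  let _ : Algebra k[X] M :=
    ((algebraMap (PowerSeries k) M).comp coeToPowerSeries.ringHom).toAlgebra
  have halg : algebraMap k[X] M =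
    (algebraMap (PowerSeries k) M).comp coeToPowerSeries.ringHom := rfl
  have hinj' : Function.Injective (algebraMap k[X] M) := by
    rw [halg]
    exact hinj.comp (Polynomial.coe_injective k)
  have _ : FaithfulSMul k[X] M := (faithfulSMul_iff_algebraMap_injective k[X] M).2 hinj'
  let _ : Algebra (FractionRing k[X]) M := FractionRing.liftAlgebra k[X] M
  have _ : IsScalarTower k[X] (FractionRing k[X]) M :=
    FractionRing.isScalarTower_liftAlgebra k[X] M
  have _ : CharZero (FractionRing k[X]) := by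
    have : Function.Injective ((algebraMap k[X] (FractionRing k[X])).comp (C : k →+* k[X])) :=
      (IsFractionRing.injective k[X] (FractionRing k[X])).comp C_injective
    exact charZero_of_injective_ringHom this
  have h1 : IsAlgebraic (FractionRing k[X]) (algebraMap (PowerSeries k) M (Θ (A 0) i j)) := by
    refine algebraic_of_system (algebraMap k[X] (FractionRing k[X])) ?_ Θ hΘ Q A hQ hA 0 i j
    intro q
    rw [← IsScalarTower.algebraMap_apply, halg]
    rfl
  rw [← IsFractionRing.isAlgebraic_iff k[X]] at h1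
  obtain ⟨P, hP, hP0⟩ := h1
  refine ⟨P, hP, hinj ?_⟩
  rw [map_zero, ← hP0, aeval_def, halg, hom_eval₂]

/-- The entries of the image of an algebraic series are algebraic over `k[z]`. -/
theorem isAlgebraic_entry {R : Type} [Ring R] {k : Type} [Field k] [CharZero k]
    {ι : Type} [Fintype ι] [DecidableEq ι] (Θ : PowerSeries R →+* Matrix ι ι (PowerSeries k))
    (hΘ : ∀ (p : Polynomial R) (i j : ι), ∃ q : Polynomial k,
      Θ (p : PowerSeries R) i j = (q : PowerSeries k) ∧ (p.coeff 0 = 0 → q.coeff 0 = 0))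
    {F : PowerSeries R} (hF : IsAlgebraicSeries F) (i j : ι) :
    ∃ P : Polynomial (Polynomial k), P ≠ 0 ∧
      P.eval₂ (Polynomial.coeToPowerSeries.ringHom) (Θ F i j) = 0 :=
  isAlgebraic_entry_aux (M := FractionRing (PowerSeries k))
    (IsFractionRing.injective _ _) Θ hΘ hF i j

end CGS
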