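import Pool.Agent.CGS.Words

/-!
# Transcendence of series with logarithmic growth
-/

namespace CGS

open Polynomial Filter Topology

/-! ### A function growing slower than every power is not algebraic -/

/-- evaluation of a polynomial in `ℝ[X][Y]` at `X = z`, `Y = g` -/
noncomputable def ev2 (z g : ℝ) (Q : ℝ[X][X]) : ℝ := Q.eval₂ (evalRingHom z) g

lemma ev2_eq_sum (z g : ℝ) (Q : ℝ[X][X]) :
    ev2 z g Q = ∑ j ∈ Finset.range (Q.natDegree + 1), (Q.coeff j).eval z * g ^ j := by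
  rw [ev2, eval₂_eq_sum_range]
  rfl

lemma not_alg_of_growth {l : Filter ℝ} [NeBot l] {c : ℝ} (hl : Tendsto id l (𝓝 c))
    (hne : ∀ᶠ z in l, z ≠ c) {g : ℝ → ℝ} (hg : Tendsto g l atTop)
    (hg' : ∀ m : ℕ, Tendsto (fun z => (z - c) * g z ^ m) l (𝓝 0)) (N : ℕ) :
    ∀ Q : ℝ[X][X], Q ≠ 0 → Q.leadingCoeff.natDegree ≤ N →
      ¬ ∀ᶠ z in l, ev2 z (g z) Q = 0 := by
  induction N using Nat.strong_induction_on with
  | _ N ih =>
    intro Q hQ hN hev
    set Q0 : ℝ[X] := Q.map (evalRingHom c) with hQ0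
    by_cases h0 : Q0 = 0
    · -- divide by X - c
      have hdvd : C (X - C c) ∣ Q := by
        rw [C_dvd_iff_dvd_coeff]
        intro i
        rw [dvd_iff_isRoot, IsRoot.def]
        have := congrArg (fun p => coeff p i) h0
        simpa [hQ0] using this
      obtain ⟨Q', hQ'⟩ := hdvd
      have hQ'0 : Q' ≠ 0 := by
        rintro rfl; exact hQ (by rw [hQ', mul_zero])
      have hlc : Q.leadingCoeff = (X - C c) * Q'.leadingCoeff := by
        rw [hQ', leadingCoeff_mul, leadingCoeff_C]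
      have hlc' : Q.leadingCoeff.natDegree = 1 + Q'.leadingCoeff.natDegree := by
        rw [hlc, natDegree_mul (X_sub_C_ne_zero c) (leadingCoeff_ne_zero.2 hQ'0),
          natDegree_X_sub_C]
      refine ih (Q'.leadingCoeff.natDegree) (by omega) Q' hQ'0 le_rfl ?_
      filter_upwards [hev, hne] with z hz hzc
      rw [hQ', ev2, eval₂_mul, eval₂_C] at hz
      have h1 : (evalRingHom z) (X - C c) = z - c := by simp
      rw [h1] at hz
      exact (mul_eq_zero.1 hz).resolve_left (sub_ne_zero.2 hzc)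
    · -- the specialisation is nonzero
      have hsmall : Tendsto (fun z => ev2 z (g z) Q - Q0.eval (g z)) l (𝓝 0) := by
        have h1 : ∀ z, ev2 z (g z) Q - Q0.eval (g z) =
            ∑ j ∈ Finset.range (Q.natDegree + 1),
              ((Q.coeff j).divByMonic (X - C c)).eval z * ((z - c) * g z ^ j) := by
          intro z
          have h2 : Q0.eval (g z) =
              ∑ j ∈ Finset.range (Q.natDegree + 1), (Q.coeff j).eval c * g z ^ j := by
            rw [hQ0, eval_map, eval₂_eq_sum_range]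
            rfl
          rw [ev2_eq_sum, h2, ← Finset.sum_sub_distrib]
          refine Finset.sum_congr rfl fun j _ => ?_
          have h3 : (Q.coeff j).eval z = (Q.coeff j).eval c +
              (z - c) * ((Q.coeff j).divByMonic (X - C c)).eval z := by
            conv_lhs => rw [← modByMonic_add_div (Q.coeff j) (X - C c)]
            rw [modByMonic_X_sub_C_eq_C_eval]
            simp
          rw [h3]; ring
        simp_rw [h1]
        rw [show (0 : ℝ) = ∑ j ∈ Finset.range (Q.natDegree + 1),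
          ((Q.coeff j).divByMonic (X - C c)).eval c * 0 by simp]
        refine tendsto_finsetSum _ fun j _ => ?_
        refine Tendsto.mul ?_ (hg' j)
        exact (Polynomial.continuous _).continuousAt.tendsto.comp hl
      have hlim : Tendsto (fun z => Q0.eval (g z)) l (𝓝 0) := by
        have h4 : (fun z => - (ev2 z (g z) Q - Q0.eval (g z))) =ᶠ[l]
            fun z => Q0.eval (g z) := by
          filter_upwards [hev] with z hz
          rw [hz]; ring
        have := hsmall.neg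
        rw [neg_zero] at this
        exact this.congr' h4
      by_cases hdeg : 0 < Q0.degree
      · have h5 := Q0.tendsto_norm_atTop hdeg (tendsto_norm_atTop_atTop.comp hg)
        have h6 := hlim.norm
        rw [norm_zero] at h6
        exact not_tendsto_nhds_of_tendsto_atTop h5 0 h6
      · have h7 := eq_C_of_degree_le_zero (not_lt.1 hdeg)
        rw [h7] at hlim
        simp only [eval_C] at hlim
        have h8 : Q0.coeff 0 = 0 := tendsto_nhds_unique tendsto_const_nhds hlim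
        exact h0 (by rw [h7, h8, C_0])

/-! ### Evaluation of power series with rational coefficients -/

/-- `A` converges absolutely at `z`, with value `s` -/
def Ev (z : ℝ) (A : PowerSeries ℚ) (s : ℝ) : Prop :=
  Summable (fun n => ‖((PowerSeries.coeff n A : ℚ) : ℝ) * z ^ n‖) ∧
    s = ∑' n, ((PowerSeries.coeff n A : ℚ) : ℝ) * z ^ n

lemma Ev.add {z : ℝ} {A B : PowerSeries ℚ} {s t : ℝ} (hA : Ev z A s) (hB : Ev z B t) :
    Ev z (A + B) (s + t) := by
  constructor
  · refine Summable.of_nonneg_of_le (fun _ => norm_nonneg _) (fun n => ?_) (hA.1.add hB.1)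
    rw [map_add]; push_cast; rw [add_mul]; exact norm_add_le _ _
  · rw [hA.2, hB.2, ← Summable.tsum_add hA.1.of_norm hB.1.of_norm]
    refine tsum_congr fun n => ?_
    rw [map_add]; push_cast; ring

lemma Ev.mul {z : ℝ} {A B : PowerSeries ℚ} {s t : ℝ} (hA : Ev z A s) (hB : Ev z B t) :
    Ev z (A * B) (s * t) := by
  set f : ℕ → ℝ := fun n => ((PowerSeries.coeff n A : ℚ) : ℝ) * z ^ n with hf
  set g : ℕ → ℝ := fun n => ((PowerSeries.coeff n B : ℚ) : ℝ) * z ^ n with hg
  have key : ∀ n, ((PowerSeries.coeff n (A * B) : ℚ) : ℝ) * z ^ n =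
      ∑ kl ∈ Finset.HasAntidiagonal.antidiagonal n, f kl.1 * g kl.2 := by
    intro n
    rw [PowerSeries.coeff_mul]
    push_cast
    rw [Finset.sum_mul]
    refine Finset.sum_congr rfl fun kl hkl => ?_
    simp only [hf, hg]
    rw [← Finset.HasAntidiagonal.mem_antidiagonal.1 hkl, pow_add]; ring
  have hf1 : Summable fun n => ‖f n‖ := hA.1
  have hg1 : Summable fun n => ‖g n‖ := hB.1
  constructor
  · have := summable_norm_sum_mul_antidiagonal_of_summable_norm hf1 hg1
    refine this.congr fun n => ?_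
    rw [key]
  · have := tsum_mul_tsum_eq_tsum_sum_antidiagonal_of_summable_norm hf1 hg1
    rw [hA.2, hB.2, this]
    exact tsum_congr fun n => (key n).symm

lemma Ev.coe (z : ℝ) (p : ℚ[X]) : Ev z (p : PowerSeries ℚ) (p.eval₂ (algebraMap ℚ ℝ) z) := by
  have hz : ∀ n, n ∉ Finset.range (p.natDegree + 1) →
      ((PowerSeries.coeff n (p : PowerSeries ℚ) : ℚ) : ℝ) * z ^ n = 0 := by
    intro n hn
    rw [Finset.mem_range, not_lt] at hn
    rw [Polynomial.coeff_coe, coeff_eq_zero_of_natDegree_lt (by omega)]; simp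
  constructor
  · refine summable_of_ne_finset_zero (s := Finset.range (p.natDegree + 1)) fun n hn => ?_
    rw [hz n hn, norm_zero]
  · rw [tsum_eq_sum hz, eval₂_eq_sum_range]
    refine Finset.sum_congr rfl fun n _ => ?_
    rw [Polynomial.coeff_coe]; rfl

lemma Ev.zero_eq {z s : ℝ} (h : Ev z 0 s) : s = 0 := by
  rw [h.2]; simp

lemma Ev.pow {z : ℝ} {A : PowerSeries ℚ} {s : ℝ} (hA : Ev z A s) (n : ℕ) :
    Ev z (A ^ n) (s ^ n) := by
  induction n with
  | zero => simpa using Ev.coe z (1 : ℚ[X])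
  | succ n ih => rw [pow_succ, pow_succ]; exact ih.mul hA

lemma Ev.eval₂ {z : ℝ} {A : PowerSeries ℚ} {s : ℝ} (hA : Ev z A s) (P : ℚ[X][X]) :
    Ev z (P.eval₂ (coeToPowerSeries.ringHom) A)
      (P.eval₂ ((evalRingHom z).comp (mapRingHom (algebraMap ℚ ℝ))) s) := by
  induction P using Polynomial.induction_on' with
  | add p q hp hq => rw [eval₂_add, eval₂_add]; exact hp.add hq
  | monomial n a =>
    rw [eval₂_monomial, eval₂_monomial]
    refine Ev.mul ?_ (hA.pow n)
    have := Ev.coe z a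
    rw [coeToPowerSeries.ringHom_apply]
    convert this using 1
    simp [eval_map]

/-! ### Growth estimates -/

lemma geom_two_le (n K : ℕ) (hK : K ≤ n) :
    ∑ k ∈ Finset.range (K + 1), 2 ^ (n - k) ≤ 2 ^ (n + 1) := by
  have h : ∀ K, K ≤ n → ∑ k ∈ Finset.range (K + 1), 2 ^ (n - k) + 2 ^ (n - K) ≤ 2 ^ (n + 1) := by
    intro K
    induction K with
    | zero => intro _; simp; rw [pow_succ]; omega
    | succ K ih =>
      intro hK
      have h1 := ih (by omega)
      rw [Finset.sum_range_succ]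
      have h2 : n - K = (n - (K + 1)) + 1 := by omega
      rw [h2, pow_succ] at h1
      omega
  exact (Nat.le_add_right _ _).trans (h K hK)

lemma upper_nat {v : ℕ → ℕ} (hup : ∀ n, v n ≤
    ∑ k ∈ Finset.range (n / 2 + 1), ∑ W ∈ words (n - 2 * k), (1 + k * run W)) (n : ℕ) :
    v n ≤ 2 ^ (n + 1) * (Nat.log 2 (n + 1) + 2) := by
  set ℓ := Nat.log 2 (n + 1) with hℓ
  have h1 : ∀ k ∈ Finset.range (n / 2 + 1), ∑ W ∈ words (n - 2 * k), (1 + k * run W) ≤
      2 ^ (n - k) * (ℓ + 2) := by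
    intro k hk
    rw [Finset.mem_range] at hk
    have hlog : Nat.log 2 (n - 2 * k + 1) ≤ ℓ := Nat.log_mono_right (by omega)
    calc ∑ W ∈ words (n - 2 * k), (1 + k * run W)
        = 2 ^ (n - 2 * k) + k * ∑ W ∈ words (n - 2 * k), run W := by
          rw [Finset.sum_add_distrib, Finset.mul_sum, Finset.sum_const, card_words]; simp
      _ ≤ 2 ^ (n - 2 * k) + k * (2 ^ (n - 2 * k) * (ℓ + 2)) := by
          refine Nat.add_le_add_left (Nat.mul_le_mul_left _ ?_) _
          exact (sum_run_le _).trans (Nat.mul_le_mul_left _ (by omega))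
      _ ≤ (k + 1) * (2 ^ (n - 2 * k) * (ℓ + 2)) := by
          rw [add_mul, one_mul, add_comm]
          exact Nat.add_le_add_left (Nat.le_mul_of_pos_right _ (by omega)) _
      _ ≤ 2 ^ k * (2 ^ (n - 2 * k) * (ℓ + 2)) :=
          Nat.mul_le_mul_right _ (Nat.lt_two_pow_self)
      _ = 2 ^ (n - k) * (ℓ + 2) := by
          rw [← mul_assoc, ← pow_add]
          congr 2; omega
  calc v n ≤ _ := hup n
    _ ≤ ∑ k ∈ Finset.range (n / 2 + 1), 2 ^ (n - k) * (ℓ + 2) := Finset.sum_le_sum h1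
    _ = (∑ k ∈ Finset.range (n / 2 + 1), 2 ^ (n - k)) * (ℓ + 2) := by rw [Finset.sum_mul]
    _ ≤ _ := Nat.mul_le_mul_right _ (geom_two_le n (n / 2) (by omega))

lemma natLog_le (n : ℕ) : (Nat.log 2 (n + 1) : ℝ) ≤ 2 * Real.log (n + 1) := by
  have h1 := Real.natLog_le_logb (n + 1) 2
  have h2 : Real.logb 2 ((n + 1 : ℕ) : ℝ) = Real.log (n + 1) / Real.log 2 := by
    rw [Real.logb]; push_cast; rfl
  have h3 : (0.5 : ℝ) < Real.log 2 := by have := Real.log_two_gt_d9; linarith
  have h4 : 0 ≤ Real.log ((n : ℝ) + 1) := Real.log_nonneg (by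
    have : (0 : ℝ) ≤ n := Nat.cast_nonneg n
    linarith)
  have h5 : Real.log ((n : ℝ) + 1) / Real.log 2 ≤ 2 * Real.log (n + 1) := by
    rw [div_le_iff₀ (by linarith)]
    nlinarith
  calc (Nat.log 2 (n + 1) : ℝ) ≤ Real.logb 2 ((n + 1 : ℕ) : ℝ) := by exact_mod_cast h1
    _ ≤ _ := by rw [h2]; exact h5

lemma upper_real {v : ℕ → ℕ} (hup : ∀ n, v n ≤
    ∑ k ∈ Finset.range (n / 2 + 1), ∑ W ∈ words (n - 2 * k), (1 + k * run W)) (n : ℕ) :
    (v n : ℝ) ≤ 2 ^ n * (4 * Real.log (n + 1) + 4) := by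
  have h1 : (v n : ℝ) ≤ 2 ^ (n + 1) * (Nat.log 2 (n + 1) + 2) := by
    exact_mod_cast upper_nat hup n
  calc (v n : ℝ) ≤ _ := h1
    _ ≤ 2 ^ (n + 1) * (2 * Real.log (n + 1) + 2) := by
        have := natLog_le n
        gcongr
    _ = _ := by rw [pow_succ]; ring

lemma majorant {v : ℕ → ℕ} (hup : ∀ n, v n ≤
    ∑ k ∈ Finset.range (n / 2 + 1), ∑ W ∈ words (n - 2 * k), (1 + k * run W)) {z : ℝ}
    (h0 : 0 < z) (h1 : z < 1 / 2) (n : ℕ) :
    (v n : ℝ) * z ^ n ≤ 4 * (-Real.log (1 - 2 * z)) * (2 * z) ^ n +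
      4 * (1 - 2 * z) * ((n : ℝ) * (2 * z) ^ n + (2 * z) ^ n) := by
  have hd : 0 < 1 - 2 * z := by linarith
  have hn : (0 : ℝ) < n + 1 := by positivity
  have h2 : Real.log (n + 1) ≤ -Real.log (1 - 2 * z) + (1 - 2 * z) * (n + 1) - 1 := by
    have := Real.log_le_sub_one_of_pos (mul_pos hd hn)
    rw [Real.log_mul hd.ne' hn.ne'] at this
    linarith
  calc (v n : ℝ) * z ^ n ≤ (2 ^ n * (4 * Real.log (n + 1) + 4)) * z ^ n := by
        have := upper_real hup n
        gcongr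
    _ = (2 * z) ^ n * (4 * Real.log (n + 1) + 4) := by rw [mul_pow]; ring
    _ ≤ (2 * z) ^ n * (4 * (-Real.log (1 - 2 * z) + (1 - 2 * z) * (n + 1) - 1) + 4) := by
        gcongr
    _ = _ := by ring

lemma majorant_hasSum {z : ℝ} (h0 : 0 < z) (h1 : z < 1 / 2) :
    HasSum (fun n : ℕ => 4 * (-Real.log (1 - 2 * z)) * (2 * z) ^ n +
      4 * (1 - 2 * z) * ((n : ℝ) * (2 * z) ^ n + (2 * z) ^ n))
      ((4 * (-Real.log (1 - 2 * z)) + 4) * (1 - 2 * z)⁻¹) := by
  have hx : ‖2 * z‖ < 1 := by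
    rw [Real.norm_eq_abs, abs_of_pos (by linarith)]; linarith
  have hd : (1 - 2 * z) ≠ 0 := by
    have : 0 < 1 - 2 * z := by linarith
    exact this.ne'
  have hg := hasSum_geometric_of_norm_lt_one hx
  have hg2 := hasSum_coe_mul_geometric_of_norm_lt_one hx
  have := (hg.mul_left (4 * (-Real.log (1 - 2 * z)))).add
    ((hg2.add hg).mul_left (4 * (1 - 2 * z)))
  have he : (4 * (-Real.log (1 - 2 * z)) + 4) * (1 - 2 * z)⁻¹ =
      4 * (-Real.log (1 - 2 * z)) * (1 - 2 * z)⁻¹ +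
        4 * (1 - 2 * z) * (2 * z / (1 - 2 * z) ^ 2 + (1 - 2 * z)⁻¹) := by
    field_simp
    ring
  rw [he]
  exact this

/-- the real function -/
noncomputable def Fv (v : ℕ → ℕ) (z : ℝ) : ℝ := ∑' n, (v n : ℝ) * z ^ n

lemma summable_v {v : ℕ → ℕ} (hup : ∀ n, v n ≤
    ∑ k ∈ Finset.range (n / 2 + 1), ∑ W ∈ words (n - 2 * k), (1 + k * run W)) {z : ℝ}
    (h0 : 0 < z) (h1 : z < 1 / 2) : Summable fun n => (v n : ℝ) * z ^ n :=
  Summable.of_nonneg_of_le (fun n => by positivity) (majorant hup h0 h1)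
    (majorant_hasSum h0 h1).summable

lemma Fv_upper {v : ℕ → ℕ} (hup : ∀ n, v n ≤
    ∑ k ∈ Finset.range (n / 2 + 1), ∑ W ∈ words (n - 2 * k), (1 + k * run W)) {z : ℝ}
    (h0 : 0 < z) (h1 : z < 1 / 2) :
    (1 - 2 * z) * Fv v z ≤ 4 * (-Real.log (1 - 2 * z)) + 4 := by
  have hd : 0 < 1 - 2 * z := by linarith
  have h2 : Fv v z ≤ (4 * (-Real.log (1 - 2 * z)) + 4) * (1 - 2 * z)⁻¹ := by
    rw [← (majorant_hasSum h0 h1).tsum_eq]
    exact Summable.tsum_le_tsum (majorant hup h0 h1) (summable_v hup h0 h1)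
      (majorant_hasSum h0 h1).summable
  calc (1 - 2 * z) * Fv v z ≤
      (1 - 2 * z) * ((4 * (-Real.log (1 - 2 * z)) + 4) * (1 - 2 * z)⁻¹) := by gcongr
    _ = _ := by field_simp

lemma Fv_lower {v : ℕ → ℕ} (hup : ∀ n, v n ≤
    ∑ k ∈ Finset.range (n / 2 + 1), ∑ W ∈ words (n - 2 * k), (1 + k * run W)) {H n0 : ℕ}
    (hlow : ∀ n, n0 ≤ n → H * 2 ^ n ≤ v n) {z : ℝ} (h0 : 0 < z) (h1 : z < 1 / 2) :
    (H : ℝ) - H * n0 * (1 - 2 * z) ≤ (1 - 2 * z) * Fv v z := by
  have hd : 0 < 1 - 2 * z := by linarith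
  have hx : ‖2 * z‖ < 1 := by
    rw [Real.norm_eq_abs, abs_of_pos (by linarith)]; linarith
  have hg := (hasSum_geometric_of_norm_lt_one hx).mul_left (H : ℝ)
  have hfin : HasSum (fun n => if n ∈ Finset.range n0 then (H : ℝ) else 0)
      (∑ n ∈ Finset.range n0, if n ∈ Finset.range n0 then (H : ℝ) else 0) :=
    hasSum_sum_of_ne_finset_zero fun n hn => by rw [if_neg hn]
  have hfin' : (∑ n ∈ Finset.range n0, if n ∈ Finset.range n0 then (H : ℝ) else 0) = H * n0 := by
    rw [Finset.sum_congr rfl (g := fun _ => (H : ℝ)) (fun n hn => by rw [if_pos hn])]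
    simp; ring
  rw [hfin'] at hfin
  have h2 : (H : ℝ) * (1 - 2 * z)⁻¹ ≤ Fv v z + H * n0 := by
    refine hasSum_le (fun n => ?_) hg (((summable_v hup h0 h1).hasSum).add hfin)
    by_cases hn : n ∈ Finset.range n0
    · rw [if_pos hn]
      have h3 : (2 * z) ^ n ≤ 1 := pow_le_one₀ (by linarith) (by linarith)
      have h4 : 0 ≤ (v n : ℝ) * z ^ n := by positivity
      have h5 : (H : ℝ) * (2 * z) ^ n ≤ H * 1 := by gcongr
      linarith
    · rw [if_neg hn, add_zero]
      rw [Finset.mem_range, not_lt] at hn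
      have h3 : (H : ℝ) * 2 ^ n ≤ v n := by exact_mod_cast hlow n hn
      rw [mul_pow, ← mul_assoc]
      gcongr
  have h6 : (1 - 2 * z) * ((H : ℝ) * (1 - 2 * z)⁻¹) ≤ (1 - 2 * z) * (Fv v z + H * n0) := by
    gcongr
  have h7 : (1 - 2 * z) * ((H : ℝ) * (1 - 2 * z)⁻¹) = H := by field_simp
  rw [h7] at h6
  linarith

lemma lower_nat {v : ℕ → ℕ} (hlow : ∀ n, ∑ W ∈ words n, (run W + 1) ≤ v (n + 2)) (H : ℕ) :
    ∃ n0, ∀ n, n0 ≤ n → H * 2 ^ n ≤ v n := by
  obtain ⟨n0, h0⟩ := exists_sum_run_ge (8 * H)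
  refine ⟨n0 + 2, fun n hn => ?_⟩
  obtain ⟨m, rfl⟩ := Nat.exists_eq_add_of_le' (show 2 ≤ n by omega)
  have h1 := h0 m (by omega)
  have h2 := hlow m
  rw [Finset.sum_add_distrib] at h2
  have h3 : H * 2 ^ (m + 2) = 4 * (H * 2 ^ m) := by ring
  have h4 : 8 * H * 2 ^ m = 8 * (H * 2 ^ m) := by ring
  rw [h3]
  rw [h4] at h1
  omega

lemma tendsto_d_mul_log (m : ℕ) :
    Tendsto (fun z : ℝ => (1 - 2 * z) * (4 * (-Real.log (1 - 2 * z)) + 4) ^ m)
      (𝓝[<] (1 / 2)) (𝓝 0) := by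
  have hd : Tendsto (fun z : ℝ => 1 - 2 * z) (𝓝[<] (1 / 2)) (𝓝[>] 0) := by
    rw [tendsto_nhdsWithin_iff]
    constructor
    · have : Tendsto (fun z : ℝ => 1 - 2 * z) (𝓝 (1 / 2)) (𝓝 (1 - 2 * (1 / 2))) :=
        (by fun_prop : Continuous fun z : ℝ => 1 - 2 * z).tendsto _
      rw [show (1 : ℝ) - 2 * (1 / 2) = 0 by norm_num] at this
      exact this.mono_left nhdsWithin_le_nhds
    · filter_upwards [self_mem_nhdsWithin] with z hz
      simp only [Set.mem_Iio] at hz
      simp only [Set.mem_Ioi]; linarith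
  have h1 : Tendsto (fun d : ℝ => d * (4 * (-Real.log d) + 4) ^ m) (𝓝[>] 0) (𝓝 0) := by
    have h2 : Tendsto (fun y : ℝ => Real.log y ^ m / y) atTop (𝓝 0) :=
      (Real.isLittleO_pow_log_id_atTop (n := m)).tendsto_div_nhds_zero
    have h3 : Tendsto (fun d : ℝ => 8 ^ m * (Real.log d⁻¹ ^ m / d⁻¹)) (𝓝[>] 0) (𝓝 0) := by
      have := (h2.comp tendsto_inv_nhdsGT_zero).const_mul ((8 : ℝ) ^ m)
      rw [mul_zero] at this
      exact this
    have hsmall : ∀ᶠ d : ℝ in 𝓝[>] 0, d < Real.exp (-1) := by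
      have : ∀ᶠ d : ℝ in 𝓝 0, d < Real.exp (-1) := eventually_lt_nhds (Real.exp_pos _)
      exact this.filter_mono nhdsWithin_le_nhds
    refine squeeze_zero' ?_ ?_ h3
    · filter_upwards [self_mem_nhdsWithin, hsmall] with d hd hd1
      have hd0 : 0 < d := hd
      have hlog : Real.log d < -1 := by
        rw [Real.log_lt_iff_lt_exp hd0]; exact hd1
      have : 0 ≤ 4 * (-Real.log d) + 4 := by linarith
      positivity
    · filter_upwards [self_mem_nhdsWithin, hsmall] with d hd hd1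
      have hd0 : 0 < d := hd
      have hlog : Real.log d < -1 := by
        rw [Real.log_lt_iff_lt_exp hd0]; exact hd1
      rw [Real.log_inv]
      have h4 : (4 * (-Real.log d) + 4) ^ m ≤ (8 * (-Real.log d)) ^ m := by
        apply pow_le_pow_left₀ <;> linarith
      calc d * (4 * (-Real.log d) + 4) ^ m ≤ d * (8 * (-Real.log d)) ^ m := by gcongr
        _ = _ := by rw [mul_pow]; field_simp
  exact h1.comp hd

/-- The generating function of `v` is transcendental. -/
theorem transcendental_of_bounds {v : ℕ → ℕ}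
    (hlow : ∀ n, ∑ W ∈ words n, (run W + 1) ≤ v (n + 2))
    (hup : ∀ n, v n ≤
      ∑ k ∈ Finset.range (n / 2 + 1), ∑ W ∈ words (n - 2 * k), (1 + k * run W))
    (P : ℚ[X][X]) (hP : P ≠ 0)
    (h : P.eval₂ (coeToPowerSeries.ringHom) (PowerSeries.mk fun n => (v n : ℚ)) = 0) :
    False := by
  set l : Filter ℝ := 𝓝[<] (1 / 2) with hl
  set g : ℝ → ℝ := fun z => (1 - 2 * z) * Fv v z with hg
  set P' : ℝ[X][X] := P.map (mapRingHom (algebraMap ℚ ℝ)) with hP'
  have hP'0 : P' ≠ 0 := by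
    rw [hP', Ne, Polynomial.map_eq_zero_iff]
    · exact hP
    · exact Polynomial.map_injective _ (algebraMap ℚ ℝ).injective
  set Q : ℝ[X][X] := P'.scaleRoots (1 - 2 * X) with hQ
  have hev : ∀ᶠ z in l, z ∈ Set.Ioo (0 : ℝ) (1 / 2) :=
    Ioo_mem_nhdsLT (by norm_num)
  have hc : Tendsto (fun z : ℝ => 1 - 2 * z) l (𝓝 0) := by
    have : Tendsto (fun z : ℝ => 1 - 2 * z) (𝓝 (1 / 2)) (𝓝 (1 - 2 * (1 / 2))) :=
      (by fun_prop : Continuous fun z : ℝ => 1 - 2 * z).tendsto _
    rw [show (1 : ℝ) - 2 * (1 / 2) = 0 by norm_num] at this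
    exact this.mono_left nhdsWithin_le_nhds
  refine not_alg_of_growth (l := l) (c := 1 / 2) (g := g) nhdsWithin_le_nhds ?_ ?_ ?_
    Q.leadingCoeff.natDegree Q (scaleRoots_ne_zero hP'0 _) le_rfl ?_
  · filter_upwards [hev] with z hz
    exact hz.2.ne
  · rw [tendsto_atTop]
    intro b
    obtain ⟨H, hH⟩ := exists_nat_gt (b + 1)
    obtain ⟨n0, hn0⟩ := lower_nat hlow H
    have h1 : ∀ᶠ z in l, (H : ℝ) * n0 * (1 - 2 * z) < 1 := by
      have := hc.const_mul ((H : ℝ) * n0)
      rw [mul_zero] at this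
      exact this.eventually_lt_const one_pos
    filter_upwards [hev, h1] with z hz h1
    have := Fv_lower hup hn0 hz.1 hz.2
    simp only [hg]
    linarith
  · intro m
    have h1 := (tendsto_d_mul_log m).const_mul (1 / 2)
    rw [mul_zero] at h1
    refine squeeze_zero_norm' ?_ h1
    obtain ⟨n0, hn0⟩ := lower_nat hlow 0
    filter_upwards [hev] with z hz
    have hd : 0 < 1 - 2 * z := by linarith [hz.2]
    have hg0 : 0 ≤ g z := by
      have := Fv_lower hup hn0 hz.1 hz.2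
      simp only [hg]
      simpa using this
    have hg1 : g z ≤ 4 * (-Real.log (1 - 2 * z)) + 4 := Fv_upper hup hz.1 hz.2
    rw [norm_mul, norm_pow, Real.norm_eq_abs, Real.norm_eq_abs, abs_of_nonneg hg0,
      abs_of_nonpos (by linarith [hz.2])]
    have h2 : g z ^ m ≤ (4 * (-Real.log (1 - 2 * z)) + 4) ^ m := pow_le_pow_left₀ hg0 hg1 m
    calc -(z - 1 / 2) * g z ^ m = 1 / 2 * ((1 - 2 * z) * g z ^ m) := by ring
      _ ≤ _ := by gcongr
  · filter_upwards [hev] with z hz
    have hEv : Ev z (PowerSeries.mk fun n => (v n : ℚ)) (Fv v z) := by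
      constructor
      · have := (summable_v hup hz.1 hz.2)
        refine this.congr fun n => ?_
        rw [PowerSeries.coeff_mk, Real.norm_eq_abs, abs_of_nonneg]
        · simp
        · have := hz.1
          push_cast
          positivity
      · rw [Fv]
        refine tsum_congr fun n => ?_
        rw [PowerSeries.coeff_mk]; simp
    have h1 := hEv.eval₂ P
    rw [h] at h1
    have h2 := h1.zero_eq
    have h3 : ev2 z (g z) Q =
        (evalRingHom z (1 - 2 * X)) ^ P'.natDegree * P'.eval₂ (evalRingHom z) (Fv v z) := by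
      rw [hQ, ← scaleRoots_eval₂_mul, ev2]
      congr 1
      simp [hg]
    rw [h3, hP', eval₂_map, h2, mul_zero]

end CGS
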