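import Mathlib

/-!
# Binary words and longest runs
-/

namespace CGS

/-- the words of length `n` -/
def words (n : ℕ) : Finset (List Bool) :=
  (Finset.univ : Finset (List.Vector Bool n)).map
    ⟨List.Vector.toList, List.Vector.toList_injective⟩

lemma mem_words {n : ℕ} {W : List Bool} : W ∈ words n ↔ W.length = n := by
  simp only [words, Finset.mem_map, Finset.mem_univ, true_and, Function.Embedding.coeFn_mk]
  constructor
  · rintro ⟨v, rfl⟩
    exact v.toList_length
  · intro h
    exact ⟨⟨W, h⟩, rfl⟩

lemma card_words (n : ℕ) : (words n).card = 2 ^ n := by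
  rw [words, Finset.card_map, Finset.card_univ, card_vector, Fintype.card_bool]

/-- `W` contains `h` consecutive letters `true` -/
def HasRun (h : ℕ) (W : List Bool) : Prop := List.replicate h true <:+: W

instance (h : ℕ) : DecidablePred (HasRun h) := fun W => by
  unfold HasRun; infer_instance

instance (W : List Bool) : DecidablePred (fun h => HasRun h W) := fun h => by
  unfold HasRun; infer_instance

lemma HasRun.le_length {h : ℕ} {W : List Bool} (H : HasRun h W) : h ≤ W.length := by
  have := H.length_le
  simpa using this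

lemma hasRun_zero (W : List Bool) : HasRun 0 W := by
  unfold HasRun; simp

lemma HasRun.mono {h h' : ℕ} {W : List Bool} (H : HasRun h W) (hh : h' ≤ h) : HasRun h' W := by
  refine List.IsInfix.trans ?_ H
  obtain ⟨c, rfl⟩ := Nat.exists_eq_add_of_le hh
  rw [List.replicate_add]
  exact (List.prefix_append _ _).isInfix

/-- the longest run of `true` in `W` -/
def run (W : List Bool) : ℕ := Nat.findGreatest (fun h => HasRun h W) W.length

lemma hasRun_run (W : List Bool) : HasRun (run W) W :=
  Nat.findGreatest_spec (P := fun h => HasRun h W) (Nat.zero_le _) (hasRun_zero W)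

lemma HasRun.le_run {h : ℕ} {W : List Bool} (H : HasRun h W) : h ≤ run W :=
  Nat.le_findGreatest H.le_length H

lemma le_run_iff {h : ℕ} {W : List Bool} : h ≤ run W ↔ HasRun h W :=
  ⟨fun H => (hasRun_run W).mono H, fun H => H.le_run⟩

lemma run_le_length (W : List Bool) : run W ≤ W.length := (hasRun_run W).le_length

lemma run_mono {W W' : List Bool} (h : W <:+: W') : run W ≤ run W' := by
  rw [le_run_iff]
  exact (hasRun_run W).trans h

lemma run_cons (b : Bool) (W : List Bool) : run W ≤ run (b :: W) :=
  run_mono (List.suffix_cons b W).isInfix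

/-! ### counting -/

lemma card_hasRun_le (m h : ℕ) :
    ((words m).filter (HasRun h)).card ≤ (m + 1) * 2 ^ (m - h) := by
  classical
  have hsub : (words m).filter (HasRun h) ⊆
      ((Finset.range (m + 1)) ×ˢ (words (m - h))).image
        (fun p => p.2.take p.1 ++ List.replicate h true ++ p.2.drop p.1) := by
    intro W hW
    rw [Finset.mem_filter, mem_words] at hW
    obtain ⟨hlen, s, t, hst⟩ := hW
    rw [Finset.mem_image]
    have hl : s.length + h + t.length = m := by
      rw [← hlen, ← hst]; simp; ring
    refine ⟨(s.length, s ++ t), ?_, ?_⟩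
    · rw [Finset.mem_product, Finset.mem_range, mem_words]
      simp only [List.length_append]
      omega
    · simp [← hst]
  calc _ ≤ _ := Finset.card_le_card hsub
    _ ≤ _ := Finset.card_image_le
    _ = (m + 1) * 2 ^ (m - h) := by
      rw [Finset.card_product, Finset.card_range, card_words]

lemma sum_run_eq (m : ℕ) : ∑ W ∈ words m, run W =
    ∑ h ∈ Finset.Icc 1 m, ((words m).filter (HasRun h)).card := by
  classical
  have h1 : ∀ W ∈ words m, run W = ∑ h ∈ Finset.Icc 1 m, if HasRun h W then 1 else 0 := by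
    intro W hW
    rw [← Finset.sum_filter, Finset.sum_const, smul_eq_mul, mul_one]
    have : (Finset.Icc 1 m).filter (fun h => HasRun h W) = Finset.Icc 1 (run W) := by
      ext h
      rw [Finset.mem_filter, Finset.mem_Icc, Finset.mem_Icc, ← le_run_iff]
      have := run_le_length W
      rw [mem_words.1 hW] at this
      omega
    rw [this]; simp
  rw [Finset.sum_congr rfl h1, Finset.sum_comm]
  refine Finset.sum_congr rfl fun h _ => ?_
  rw [Finset.card_filter]

lemma sum_run_le (m : ℕ) : ∑ W ∈ words m, run W ≤ 2 ^ m * (Nat.log 2 (m + 1) + 2) := by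
  classical
  rw [sum_run_eq]
  set L := Nat.log 2 (m + 1) + 1 with hL
  have h2L : m + 1 ≤ 2 ^ L := (Nat.lt_pow_succ_log_self (by norm_num) (m + 1)).le
  have hbig : ∀ h ∈ Finset.Icc 1 m, ((words m).filter (HasRun h)).card ≤
      if h ≤ L then 2 ^ m else 2 ^ (m + L - h) := by
    intro h hh
    rw [Finset.mem_Icc] at hh
    split_ifs with hc
    · rw [← card_words m]; exact Finset.card_filter_le _ _
    · refine (card_hasRun_le m h).trans ?_
      have : m + L - h = L + (m - h) := by omega
      rw [this, pow_add]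
      exact Nat.mul_le_mul_right _ h2L
  have hgeo : ∑ h ∈ (Finset.Icc 1 m).filter (fun h => ¬ h ≤ L), 2 ^ (m + L - h) ≤ 2 ^ m := by
    by_cases hLm : L < m
    · have h3 : ((Finset.Icc 1 m).filter (fun h => ¬ h ≤ L)) ⊆
          (Finset.range (m - L)).image (fun i => m - i) := by
        intro h hh
        rw [Finset.mem_filter, Finset.mem_Icc] at hh
        rw [Finset.mem_image]
        exact ⟨m - h, by rw [Finset.mem_range]; omega, by omega⟩
      calc _ ≤ ∑ h ∈ (Finset.range (m - L)).image (fun i => m - i), 2 ^ (m + L - h) :=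
            Finset.sum_le_sum_of_subset h3
        _ = ∑ i ∈ Finset.range (m - L), 2 ^ (m + L - (m - i)) := by
            rw [Finset.sum_image]
            intro a ha b hb hab
            simp only [Finset.coe_range, Set.mem_Iio] at ha hb
            simp only at hab
            omega
        _ = ∑ i ∈ Finset.range (m - L), 2 ^ L * 2 ^ i := by
            refine Finset.sum_congr rfl fun i hi => ?_
            rw [Finset.mem_range] at hi
            rw [← pow_add]
            congr 1
            omega
        _ = 2 ^ L * ∑ i ∈ Finset.range (m - L), 2 ^ i := by rw [Finset.mul_sum]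
        _ ≤ 2 ^ L * 2 ^ (m - L) := by
            refine Nat.mul_le_mul_left _ ?_
            rw [Nat.geomSum_eq (by norm_num)]
            simp
        _ = 2 ^ m := by rw [← pow_add]; congr 1; omega
    · have : (Finset.Icc 1 m).filter (fun h => ¬ h ≤ L) = ∅ := by
        rw [Finset.filter_eq_empty_iff]
        intro h hh
        rw [Finset.mem_Icc] at hh
        omega
      rw [this]; simp
  calc _ ≤ ∑ h ∈ Finset.Icc 1 m, (if h ≤ L then 2 ^ m else 2 ^ (m + L - h)) :=
        Finset.sum_le_sum hbig
    _ = ∑ h ∈ (Finset.Icc 1 m).filter (fun h => h ≤ L), 2 ^ m +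
        ∑ h ∈ (Finset.Icc 1 m).filter (fun h => ¬ h ≤ L), 2 ^ (m + L - h) := by
        rw [Finset.sum_ite]
    _ ≤ L * 2 ^ m + 2 ^ m := by
        refine Nat.add_le_add ?_ hgeo
        rw [Finset.sum_const, smul_eq_mul]
        refine Nat.mul_le_mul_right _ ?_
        calc _ ≤ (Finset.Icc 1 L).card := by
              refine Finset.card_le_card fun h hh => ?_
              rw [Finset.mem_filter, Finset.mem_Icc] at hh
              rw [Finset.mem_Icc]; omega
          _ = L := by simp
    _ = 2 ^ m * (Nat.log 2 (m + 1) + 2) := by rw [hL]; ring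

/-- number of words of length `n` without a run of length `H` -/
def noRun (H n : ℕ) : ℕ := ((words n).filter (fun W => ¬ HasRun H W)).card

lemma noRun_le_pow (H n : ℕ) : noRun H n ≤ 2 ^ n := by
  rw [← card_words n]; exact Finset.card_filter_le _ _

lemma noRun_add (H n : ℕ) : noRun H (H + n) ≤ (2 ^ H - 1) * noRun H n := by
  classical
  have hsub : (words (H + n)).filter (fun W => ¬ HasRun H W) ⊆
      (((words H).erase (List.replicate H true)) ×ˢ
        ((words n).filter (fun W => ¬ HasRun H W))).image (fun p => p.1 ++ p.2) := by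
    intro W hW
    rw [Finset.mem_filter, mem_words] at hW
    obtain ⟨hlen, hno⟩ := hW
    rw [Finset.mem_image]
    refine ⟨(W.take H, W.drop H), ?_, by simp⟩
    rw [Finset.mem_product, Finset.mem_erase, mem_words, Finset.mem_filter, mem_words]
    refine ⟨⟨?_, ?_⟩, ?_, ?_⟩
    · intro h
      apply hno
      unfold HasRun
      simp only at h
      rw [← h]
      exact (List.take_prefix H W).isInfix
    · simp; omega
    · simp; omega
    · intro h
      apply hno
      exact List.IsInfix.trans h (List.drop_suffix H W).isInfix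
  calc _ ≤ _ := Finset.card_le_card hsub
    _ ≤ _ := Finset.card_image_le
    _ = (2 ^ H - 1) * noRun H n := by
      rw [Finset.card_product, Finset.card_erase_of_mem (mem_words.2 (by simp)), card_words]
      rfl

lemma noRun_le (H q s : ℕ) : noRun H (H * q + s) ≤ (2 ^ H - 1) ^ q * 2 ^ s := by
  induction q with
  | zero => simpa using noRun_le_pow H s
  | succ q ih =>
    have : H * (q + 1) + s = H + (H * q + s) := by ring
    rw [this, pow_succ]
    calc _ ≤ (2 ^ H - 1) * noRun H (H * q + s) := noRun_add _ _
      _ ≤ (2 ^ H - 1) * ((2 ^ H - 1) ^ q * 2 ^ s) := Nat.mul_le_mul_left _ ih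
      _ = _ := by ring

/-- For large `n` at least half of the words of length `n` have a run of length `H`. -/
lemma exists_half (H : ℕ) : ∃ n0, ∀ n, n0 ≤ n →
    2 ^ n ≤ 2 * ((words n).filter (HasRun H)).card := by
  classical
  rcases Nat.eq_zero_or_pos H with rfl | hH
  · refine ⟨0, fun n _ => ?_⟩
    have : (words n).filter (HasRun 0) = words n := by
      rw [Finset.filter_eq_self]; intro W _; exact hasRun_zero W
    rw [this, card_words]; omega
  set θ : ℝ := 1 - (1 / 2) ^ H with hθ
  have hθ0 : 0 ≤ θ := by
    rw [hθ, sub_nonneg]; exact pow_le_one₀ (by norm_num) (by norm_num)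
  have hθ1 : θ < 1 := by
    rw [hθ]; have : (0 : ℝ) < (1 / 2) ^ H := by positivity
    linarith
  obtain ⟨q0, hq0⟩ := exists_pow_lt_of_lt_one (show (0 : ℝ) < 1 / 2 by norm_num) hθ1
  refine ⟨H * q0, fun n hn => ?_⟩
  have hq : q0 ≤ n / H := by
    rw [Nat.le_div_iff_mul_le hH]; linarith
  have h1 := noRun_le H (n / H) (n % H)
  rw [Nat.div_add_mod] at h1
  have h2 : (noRun H n : ℝ) ≤ 2 ^ n * (1 / 2) := by
    have h3 : (noRun H n : ℝ) ≤ ((2 : ℝ) ^ H - 1) ^ (n / H) * 2 ^ (n % H) := by
      have : ((2 ^ H - 1 : ℕ) : ℝ) = (2 : ℝ) ^ H - 1 := by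
        rw [Nat.cast_sub Nat.one_le_two_pow]; simp
      rw [← this]; exact_mod_cast h1
    have h4 : (2 : ℝ) ^ H - 1 = 2 ^ H * θ := by
      rw [hθ]
      have : (2 : ℝ) ^ H * (1 / 2) ^ H = 1 := by rw [← mul_pow]; norm_num
      linear_combination this
    rw [h4, mul_pow, ← pow_mul] at h3
    have h5 : (2 : ℝ) ^ n = 2 ^ (H * (n / H)) * 2 ^ (n % H) := by
      rw [← pow_add, Nat.div_add_mod]
    have h6 : θ ^ (n / H) ≤ 1 / 2 :=
      (pow_le_pow_of_le_one hθ0 hθ1.le hq).trans hq0.le
    calc (noRun H n : ℝ) ≤ 2 ^ (H * (n / H)) * θ ^ (n / H) * 2 ^ (n % H) := h3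
      _ = 2 ^ n * θ ^ (n / H) := by rw [h5]; ring
      _ ≤ 2 ^ n * (1 / 2) := by gcongr
  have h7 : ((words n).filter (HasRun H)).card + noRun H n = 2 ^ n := by
    rw [← card_words n, noRun]
    exact Finset.card_filter_add_card_filter_not _
  have h8 : (((words n).filter (HasRun H)).card : ℝ) + noRun H n = 2 ^ n := by
    exact_mod_cast h7
  have h9 : (2 : ℝ) ^ n ≤ 2 * ((words n).filter (HasRun H)).card := by linarith
  exact_mod_cast h9

lemma exists_sum_run_ge (H : ℕ) : ∃ n0, ∀ n, n0 ≤ n → H * 2 ^ n ≤ 2 * ∑ W ∈ words n, run W := by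
  classical
  obtain ⟨n0, h0⟩ := exists_half H
  refine ⟨n0, fun n hn => ?_⟩
  calc H * 2 ^ n ≤ H * (2 * ((words n).filter (HasRun H)).card) :=
        Nat.mul_le_mul_left _ (h0 n hn)
    _ = 2 * ∑ W ∈ (words n).filter (HasRun H), H := by
        rw [Finset.sum_const, smul_eq_mul]; ring
    _ ≤ 2 * ∑ W ∈ words n, run W := by
        refine Nat.mul_le_mul_left _ ?_
        calc _ ≤ ∑ W ∈ (words n).filter (HasRun H), run W :=
              Finset.sum_le_sum fun W hW => (Finset.mem_filter.1 hW).2.le_run
          _ ≤ _ := Finset.sum_le_sum_of_subset (Finset.filter_subset _ _)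

end CGS
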