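import Pool.Agent.CGS.Defs
import Pool.Agent.CGS.Words

/-!
# Word length, the cost cocycle, and the structure of the extremal elements
-/

namespace CGS

open DihedralGroup

/-! ### word length -/

section
variable {G : Type} [Group G]

lemma wordLength_le {S : Finset G} {l : List G} (hl : ∀ x ∈ l, x ∈ S ∨ x⁻¹ ∈ S) :
    wordLength S l.prod ≤ l.length := Nat.sInf_le ⟨l, hl, rfl, rfl⟩

lemma exists_list_of_closure {S : Finset G} (hS : Subgroup.closure (S : Set G) = ⊤) (g : G) :
    ∃ l : List G, (∀ x ∈ l, x ∈ S ∨ x⁻¹ ∈ S) ∧ l.prod = g := by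
  have hg : g ∈ Subgroup.closure (S : Set G) := by rw [hS]; trivial
  induction hg using Subgroup.closure_induction with
  | mem x hx => exact ⟨[x], by simpa using Or.inl hx, by simp⟩
  | one => exact ⟨[], by simp, rfl⟩
  | mul x y _ _ hx hy =>
    obtain ⟨l, hl, rfl⟩ := hx
    obtain ⟨l', hl', rfl⟩ := hy
    refine ⟨l ++ l', ?_, by simp⟩
    intro z hz
    rcases List.mem_append.1 hz with h | h
    · exact hl z h
    · exact hl' z h
  | inv x _ hx =>
    obtain ⟨l, hl, rfl⟩ := hx
    refine ⟨(l.map (fun x => x⁻¹)).reverse, ?_, ?_⟩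
    · intro z hz
      rw [List.mem_reverse, List.mem_map] at hz
      obtain ⟨y, hy, rfl⟩ := hz
      rw [inv_inv]
      exact (hl y hy).symm
    · rw [List.prod_inv_reverse]

lemma exists_word {S : Finset G} (hS : Subgroup.closure (S : Set G) = ⊤) (g : G) :
    ∃ l : List G, (∀ x ∈ l, x ∈ S ∨ x⁻¹ ∈ S) ∧ l.prod = g ∧ l.length = wordLength S g := by
  have hne : {n | ∃ l : List G, (∀ x ∈ l, x ∈ S ∨ x⁻¹ ∈ S) ∧ l.prod = g ∧
      l.length = n}.Nonempty := by
    obtain ⟨l, hl, hp⟩ := exists_list_of_closure hS g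
    exact ⟨l.length, l, hl, hp, rfl⟩
  exact Nat.sInf_mem hne

lemma finite_prods (S : Finset G) (n : ℕ) :
    {g : G | ∃ l : List G, (∀ x ∈ l, x ∈ S ∨ x⁻¹ ∈ S) ∧ l.prod = g ∧ l.length = n}.Finite := by
  induction n with
  | zero =>
    refine (Set.finite_singleton (1 : G)).subset ?_
    rintro g ⟨l, -, rfl, hl⟩
    rw [List.length_eq_zero_iff] at hl
    subst hl
    simp
  | succ n ih =>
    have hT : {x : G | x ∈ S ∨ x⁻¹ ∈ S}.Finite := by
      have h1 : {x : G | x ∈ S ∨ x⁻¹ ∈ S} = (S : Set G) ∪ (fun x => x⁻¹) ⁻¹' (S : Set G) := by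
        ext x; simp
      rw [h1]
      exact S.finite_toSet.union (S.finite_toSet.preimage (inv_injective.injOn))
    refine (hT.image2 (fun x y => x * y) ih).subset ?_
    rintro g ⟨l, hl, rfl, hlen⟩
    cases l with
    | nil => simp at hlen
    | cons x l =>
      refine ⟨x, hl x (by simp), l.prod, ⟨l, fun y hy => hl y (by simp [hy]), rfl, ?_⟩, ?_⟩
      · simpa using hlen
      · simp

lemma finite_sphere {S : Finset G} (hS : Subgroup.closure (S : Set G) = ⊤) (n : ℕ) :
    {g : G | wordLength S g = n}.Finite := by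
  refine (finite_prods S n).subset ?_
  intro g hg
  obtain ⟨l, hl, hp, hlen⟩ := exists_word hS g
  exact ⟨l, hl, hp, hlen.trans hg⟩

/-- the sphere as a finset -/
noncomputable def sphere {S : Finset G} (hS : Subgroup.closure (S : Set G) = ⊤) (n : ℕ) :
    Finset G := (finite_sphere hS n).toFinset

lemma mem_sphere {S : Finset G} (hS : Subgroup.closure (S : Set G) = ⊤) {n : ℕ} {g : G} :
    g ∈ sphere hS n ↔ wordLength S g = n := by
  simp [sphere]

lemma coeff_CG {S : Finset G} (hS : Subgroup.closure (S : Set G) = ⊤) (n : ℕ) :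
    PowerSeries.coeff n (CG S) = ∑ g ∈ sphere hS n, MonoidAlgebra.single g (1 : ℤ) := by
  rw [CG, PowerSeries.coeff_mk]
  exact finsum_mem_eq_finite_toFinset_sum _ _

end

/-! ### the two generating sets generate -/

lemma eq_top_of_std (H : Subgroup Grp) (h1 : ga ∈ H) (h2 : gb ∈ H) (h3 : gτ ∈ H) (h4 : gσ ∈ H)
    (h5 : gs ∈ H) (h6 : gt ∈ H) : H = ⊤ := by
  rw [Subgroup.eq_top_iff']
  rintro ⟨w, d, x, y⟩
  have hw : ∀ w : FreeGroup Bool, ((w, 1, 1, 1) : Grp) ∈ H := by
    intro w
    induction w using FreeGroup.induction_on with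
    | C1 => exact H.one_mem
    | of b => cases b
              · exact h2
              · exact h1
    | inv_of b hb =>
      have := H.inv_mem hb
      simpa using this
    | mul x y hx hy =>
      have := H.mul_mem hx hy
      simpa using this
  have hr : ∀ i : ZMod 0, ((1, r i, 1, 1) : Grp) ∈ H := by
    intro i
    have h7 : ∀ k : ℤ, gτ ^ k = (1, r (Int.cast k), 1, 1) := by
      intro k
      simp only [gτ, Prod.pow_mk, one_zpow, r_one_zpow]
    have h8 : ∀ k : ℤ, ((1, r (Int.cast k), 1, 1) : Grp) ∈ H := by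
      intro k
      rw [← h7]
      exact H.zpow_mem h3 k
    obtain ⟨k, rfl⟩ := ZMod.intCast_surjective i
    exact h8 k
  have hd : ((1, d, 1, 1) : Grp) ∈ H := by
    cases d with
    | r i => exact hr i
    | sr i =>
      have := H.mul_mem h4 (hr i)
      simpa [gσ] using this
  have hx : ((1, 1, x, 1) : Grp) ∈ H := by
    have := H.zpow_mem h5 (x.toAdd)
    have h7 : gs ^ (x.toAdd) = (1, 1, x, 1) := by
      simp only [gs, Prod.pow_mk, one_zpow]
      rw [← ofAdd_zsmul]; simp
    rwa [h7] at this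
  have hy : ((1, 1, 1, y) : Grp) ∈ H := by
    have := H.zpow_mem h6 (y.toAdd)
    have h7 : gt ^ (y.toAdd) = (1, 1, 1, y) := by
      simp only [gt, Prod.pow_mk, one_zpow]
      rw [← ofAdd_zsmul]; simp
    rwa [h7] at this
  have := H.mul_mem (H.mul_mem (hw w) hd) (H.mul_mem hx hy)
  simpa using this

lemma closure_S1 : Subgroup.closure (S1 : Set Grp) = ⊤ := by
  apply eq_top_of_std <;> apply Subgroup.subset_closure <;> simp [S1]

lemma closure_S2 : Subgroup.closure (S2 : Set Grp) = ⊤ := by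
  set H := Subgroup.closure (S2 : Set Grp) with hH
  have hA : ga * gτ⁻¹ ∈ H := Subgroup.subset_closure (by simp [S2])
  have hB : gb * gτ⁻¹ ∈ H := Subgroup.subset_closure (by simp [S2])
  have hQ : gσ * gs ∈ H := Subgroup.subset_closure (by simp [S2])
  have hR : ga * gτ * gt ∈ H := Subgroup.subset_closure (by simp [S2])
  have hX : gτ ∈ H := Subgroup.subset_closure (by simp [S2])
  have hY : gσ ∈ H := Subgroup.subset_closure (by simp [S2])
  have ha : ga ∈ H := by
    have := H.mul_mem hA hX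
    simpa using this
  have hb : gb ∈ H := by
    have := H.mul_mem hB hX
    simpa using this
  have hs : gs ∈ H := by
    have := H.mul_mem (H.inv_mem hY) hQ
    simpa using this
  have ht : gt ∈ H := by
    have := H.mul_mem (H.inv_mem (H.mul_mem ha hX)) hR
    rwa [inv_mul_cancel_left] at this
  exact eq_top_of_std H ha hb hX hY hs ht

/-! ### exponents and the cost cocycle -/

/-- exponent sum on the free group -/
def exHom : FreeGroup Bool →* Multiplicative ℤ := FreeGroup.lift fun _ => Multiplicative.ofAdd 1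

/-- exponent sum on the free group -/
def ex (w : FreeGroup Bool) : ℤ := (exHom w).toAdd

lemma ex_mul (w w' : FreeGroup Bool) : ex (w * w') = ex w + ex w' := by
  simp [ex]

lemma ex_one : ex 1 = 0 := by simp [ex]

lemma ex_inv (w : FreeGroup Bool) : ex w⁻¹ = - ex w := by simp [ex]

lemma ex_of (b : Bool) : ex (FreeGroup.of b) = 1 := by simp [ex, exHom]

/-- is `d` a reflection -/
def isR : DihedralGroup 0 → Bool
  | r _ => false
  | sr _ => true

/-- the integer underlying an element of `ZMod 0` -/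
def zi (i : ZMod 0) : ℤ := i

lemma zi_add (i j : ZMod 0) : zi (i + j) = zi i + zi j := rfl
lemma zi_sub (i j : ZMod 0) : zi (i - j) = zi i - zi j := rfl
lemma zi_neg (i : ZMod 0) : zi (-i) = - zi i := rfl
lemma zi_one : zi 1 = 1 := rfl
lemma zi_zero : zi 0 = 0 := rfl
lemma zi_inj {i j : ZMod 0} (h : zi i = zi j) : i = j := h

/-- the exponent of a dihedral element -/
def dex : DihedralGroup 0 → ℤ
  | r i => zi i
  | sr i => - zi i

/-- sign of a state -/
def sg : Bool → ℤ
  | false => 1
  | true => -1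

lemma isR_mul (d d' : DihedralGroup 0) : isR (d * d') = (isR d ^^ isR d') := by
  cases d <;> cases d' <;> rfl

lemma dex_mul (d d' : DihedralGroup 0) : dex (d * d') = dex d + sg (isR d) * dex d' := by
  cases d with
  | r i =>
    cases d' with
    | r j => rw [r_mul_r]; simp only [dex, isR, sg, zi_add]; ring
    | sr j => rw [r_mul_sr]; simp only [dex, isR, sg, zi_sub]; ring
  | sr i =>
    cases d' with
    | r j => rw [sr_mul_r]; simp only [dex, isR, sg, zi_add]; ring
    | sr j => rw [sr_mul_sr]; simp only [dex, isR, sg, zi_sub]; ring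

/-- the homomorphism `ψ` bounding the word length from below -/
def psi (g : Grp) : ℤ := ex g.1 + g.2.2.1.toAdd

/-- the weight -/
def psi2 (g : Grp) : ℤ := ex g.1 + 2 * g.2.2.1.toAdd

lemma psi_mul (g h : Grp) : psi (g * h) = psi g + psi h := by
  simp only [psi, Prod.fst_mul, Prod.snd_mul, ex_mul, toAdd_mul]; ring

lemma psi2_mul (g h : Grp) : psi2 (g * h) = psi2 g + psi2 h := by
  simp only [psi2, Prod.fst_mul, Prod.snd_mul, ex_mul, toAdd_mul]; ring

/-- the cost cocycle -/
def cost (p : Bool) (g : Grp) : ℤ := sg p * dex g.2.1 - psi2 g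

/-- whether `g` exchanges the two states -/
def swp (g : Grp) : Bool := isR g.2.1

lemma swp_mul (g h : Grp) : swp (g * h) = (swp g ^^ swp h) := isR_mul _ _

lemma cost_mul (p : Bool) (g h : Grp) :
    cost p (g * h) = cost p g + cost (p ^^ swp g) h := by
  have h1 : sg (p ^^ swp g) = sg p * sg (swp g) := by
    cases p <;> cases swp g <;> rfl
  simp only [cost, psi2_mul, Prod.fst_mul, Prod.snd_mul, dex_mul, h1]
  simp only [swp]
  ring

lemma cost_one (p : Bool) : cost p 1 = 0 := by
  have := cost_mul p 1 1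
  have h1 : swp 1 = false := rfl
  rw [h1, mul_one, Bool.xor_false] at this
  linarith

lemma swp_one : swp 1 = false := rfl

lemma isR_inv (d : DihedralGroup 0) : isR d⁻¹ = isR d := by
  cases d <;> rfl

lemma swp_inv (g : Grp) : swp g⁻¹ = swp g := isR_inv _

lemma cost_inv (p : Bool) (g : Grp) : cost p g⁻¹ = - cost (p ^^ swp g) g := by
  have := cost_mul p g⁻¹ g
  rw [inv_mul_cancel, cost_one, swp_inv] at this
  linarith

/-! letters -/

lemma psi_inv (g : Grp) : psi g⁻¹ = - psi g := by
  have h1 := psi_mul g⁻¹ g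
  have h2 := psi_mul 1 1
  rw [inv_mul_cancel] at h1
  rw [mul_one] at h2
  linarith

lemma mem_S2 {u : Grp} : u ∈ S2 ↔ u = ga * gτ⁻¹ ∨ u = gb * gτ⁻¹ ∨ u = gσ * gs ∨
    u = ga * gτ * gt ∨ u = gτ ∨ u = gσ := by
  simp [S2]

lemma psi_letter {u : Grp} (hu : u ∈ S2 ∨ u⁻¹ ∈ S2) : psi u ≤ 1 := by
  have key : ∀ x ∈ S2, psi x ≤ 1 ∧ -psi x ≤ 1 := by
    intro x hx
    rw [mem_S2] at hx
    rcases hx with rfl | rfl | rfl | rfl | rfl | rfl <;>
      simp [psi, ga, gb, gτ, gσ, gs, gt, ex_mul, ex_of, ex_inv, ex_one]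
  rcases hu with hu | hu
  · exact (key u hu).1
  · have := (key _ hu).2
    rw [psi_inv] at this
    linarith

lemma psi_le_length {l : List Grp} (hl : ∀ x ∈ l, x ∈ S2 ∨ x⁻¹ ∈ S2) : psi l.prod ≤ l.length := by
  induction l with
  | nil =>
    have h2 := psi_mul 1 1
    rw [mul_one] at h2
    simp only [List.prod_nil, List.length_nil]
    push_cast
    linarith
  | cons u l ih =>
    rw [List.prod_cons, psi_mul, List.length_cons]
    have h1 := psi_letter (hl u (by simp))
    have h2 := ih fun x hx => hl x (by simp [hx])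
    push_cast
    linarith

lemma psi_le_wordLength (g : Grp) : psi g ≤ wordLength S2 g := by
  obtain ⟨l, hl, rfl, hlen⟩ := exists_word closure_S2 g
  rw [← hlen]
  exact psi_le_length hl

lemma dex_one : dex 1 = 0 := rfl
lemma dex_r_one : dex (r 1) = 1 := rfl
lemma dex_sr_zero : dex (sr 0) = 0 := rfl

lemma cost_ga (p : Bool) : cost p ga = -1 := by simp [cost, psi2, ga, ex_of, dex_one]
lemma cost_gb (p : Bool) : cost p gb = -1 := by simp [cost, psi2, gb, ex_of, dex_one]
lemma cost_gτ (p : Bool) : cost p gτ = sg p := by simp [cost, psi2, gτ, ex_one, dex_r_one]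
lemma cost_gσ (p : Bool) : cost p gσ = 0 := by simp [cost, psi2, gσ, ex_one, dex_sr_zero]
lemma cost_gs (p : Bool) : cost p gs = -2 := by simp [cost, psi2, gs, ex_one, dex_one]
lemma cost_gt (p : Bool) : cost p gt = 0 := by simp [cost, psi2, gt, ex_one, dex_one]
lemma swp_ga : swp ga = false := rfl
lemma swp_gb : swp gb = false := rfl
lemma swp_gτ : swp gτ = false := rfl
lemma swp_gσ : swp gσ = true := rfl
lemma swp_gs : swp gs = false := rfl
lemma swp_gt : swp gt = false := rfl

lemma cost_letter {u : Grp} (hu : u ∈ S2 ∨ u⁻¹ ∈ S2) (p : Bool) :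
    0 ≤ cost p u + 2 ∧ (cost p u + 2 = 0 →
      (p = false ∧ u = ga * gτ⁻¹) ∨ (p = false ∧ u = gb * gτ⁻¹) ∨ u = gσ * gs ∨
      (p = true ∧ u = ga * gτ * gt)) := by
  have key : ∀ x ∈ S2, ∀ p, (0 ≤ cost p x + 2 ∧ (cost p x + 2 = 0 →
      (p = false ∧ x = ga * gτ⁻¹) ∨ (p = false ∧ x = gb * gτ⁻¹) ∨ x = gσ * gs ∨
      (p = true ∧ x = ga * gτ * gt))) ∧ cost p x < 2 := by
    intro x hx p
    rw [mem_S2] at hx
    rcases hx with rfl | rfl | rfl | rfl | rfl | rfl <;> cases p <;>
      simp [cost_mul, cost_inv, cost_ga, cost_gb, cost_gτ, cost_gσ, cost_gs, cost_gt, swp_ga,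
        swp_gb, swp_gσ, swp_gτ, swp_gs, swp_gt, swp_mul, swp_inv, sg]
  rcases hu with hu | hu
  · exact (key u hu p).1
  · have h1 := (key _ hu (p ^^ swp u⁻¹)).2
    rw [← inv_inv u, cost_inv]
    constructor
    · linarith
    · intro h; exfalso; linarith

end CGS
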