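import Mathlib

/-!
# Complete growth series: definitions

Definitions used in the statement of `MP_c4ee57_al` (rational and transcendental complete
growth series in one group).
-/

namespace CGS

/-- The word length of `g` with respect to `S`: the least `n` such that `g` is a product of `n`
elements of `S ∪ S⁻¹`. -/
noncomputable def wordLength {G : Type} [Group G] (S : Finset G) (g : G) : ℕ :=
  sInf {n | ∃ l : List G, (∀ x ∈ l, x ∈ S ∨ x⁻¹ ∈ S) ∧ l.prod = g ∧ l.length = n}

/-- The complete growth series `∑_g g z^{d(1,g)}` of `G` with respect to `S`, an element of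
`ℤG[[z]]`: its `n`-th coefficient is the sum in `ℤG` of all elements of word length `n`. -/
noncomputable def CG {G : Type} [Group G] (S : Finset G) : PowerSeries (MonoidAlgebra ℤ G) :=
  PowerSeries.mk fun n => ∑ᶠ g ∈ {g : G | wordLength S g = n}, MonoidAlgebra.single g (1 : ℤ)

/-- `A* = 1 + A + A² + ⋯` (for `A` with `A(0) = 0`; then `A^k` does not contribute to the
coefficient of `z^n` for `k > n`). -/
noncomputable def star {R : Type} [Ring R] (A : PowerSeries R) : PowerSeries R :=
  PowerSeries.mk fun n => ∑ k ∈ Finset.range (n + 1), PowerSeries.coeff n (A ^ k)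

/-- The rational subring of `R[[z]]`: the smallest subring containing `R[z]` and closed under
`A ↦ A*` for `A` with `A(0) = 0`. -/
noncomputable def rationalSubring (R : Type) [Ring R] : Subring (PowerSeries R) :=
  sInf {T | (∀ p : Polynomial R, (p : PowerSeries R) ∈ T) ∧
    ∀ A ∈ T, PowerSeries.constantCoeff A = 0 → star A ∈ T}

/-- A non-commutative monomial `c₀ A_{j₁} c₁ A_{j₂} ⋯ A_{j_k} c_k` in `n` unknowns with
coefficients in `R[z]`: the data `c₀` and the list of the pairs `(j_m, c_m)`, `m = 1, …, k`. -/
structure Mono (R : Type) [Ring R] (n : ℕ) where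
  /-- the coefficient `c₀` -/
  c0 : Polynomial R
  /-- the list of pairs `(j_m, c_m)` -/
  tail : List (Fin n × Polynomial R)

/-- The value of a monomial at `A = (A_j)_j`. -/
noncomputable def Mono.eval {R : Type} [Ring R] {n : ℕ} (A : Fin n → PowerSeries R)
    (m : Mono R n) : PowerSeries R :=
  (m.c0 : PowerSeries R) * (m.tail.map fun p => A p.1 * (p.2 : PowerSeries R)).prod

/-- A monomial is proper if it has `k = 0` or at least one of its coefficients `c_m` is divisible
by `z`. -/
def Mono.Proper {R : Type} [Ring R] {n : ℕ} (m : Mono R n) : Prop :=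
  m.tail = [] ∨ m.c0.coeff 0 = 0 ∨ ∃ p ∈ m.tail, p.2.coeff 0 = 0

/-- A series is algebraic if it is the first component of the solution of some proper system
`A_i = Q_i(A_0, …, A_n)`, each `Q_i` a finite sum of monomials. -/
def IsAlgebraicSeries {R : Type} [Ring R] (F : PowerSeries R) : Prop :=
  ∃ (n : ℕ) (Q : Fin (n + 1) → List (Mono R (n + 1))) (A : Fin (n + 1) → PowerSeries R),
    (∀ i, ∀ m ∈ Q i, m.Proper) ∧ (∀ i, A i = ((Q i).map (Mono.eval A)).sum) ∧ A 0 = F

/-- The group `F₂ × D_∞ × ℤ × ℤ`. -/
abbrev Grp : Type :=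
  FreeGroup Bool × (DihedralGroup 0 × (Multiplicative ℤ × Multiplicative ℤ))

/-- the standard generators `a, b, τ, σ, s, t` of `Grp` -/
def ga : Grp := (FreeGroup.of true, 1, 1, 1)
/-- `b` -/
def gb : Grp := (FreeGroup.of false, 1, 1, 1)
/-- `τ` -/
def gτ : Grp := (1, DihedralGroup.r 1, 1, 1)
/-- `σ` -/
def gσ : Grp := (1, DihedralGroup.sr 0, 1, 1)
/-- `s` -/
def gs : Grp := (1, 1, Multiplicative.ofAdd 1, 1)
/-- `t` -/
def gt : Grp := (1, 1, 1, Multiplicative.ofAdd 1)

open Classical in
/-- the generating set with rational complete growth series -/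
noncomputable def S1 : Finset Grp := {ga, gb, gτ, gσ, gs, gt}

open Classical in
/-- the generating set with transcendental complete growth series -/
noncomputable def S2 : Finset Grp :=
  {ga * gτ⁻¹, gb * gτ⁻¹, gσ * gs, ga * gτ * gt, gτ, gσ}

end CGS
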