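import Pool.Agent.CGS.Coc

/-!
# The structure of the extremal elements
-/

namespace CGS

open DihedralGroup

/-- positive words in the free group -/
def pos (W : List Bool) : FreeGroup Bool := (W.map FreeGroup.of).prod

lemma pos_nil : pos [] = 1 := rfl

lemma pos_cons (b : Bool) (W : List Bool) : pos (b :: W) = FreeGroup.of b * pos W := by
  simp [pos]

lemma pos_eq_mk (W : List Bool) : pos W = FreeGroup.mk (W.map fun b => (b, true)) := by
  induction W with
  | nil => rfl
  | cons b W ih =>
    rw [pos_cons, ih]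
    rfl

lemma toWord_pos (W : List Bool) : (pos W).toWord = W.map fun b => (b, true) := by
  rw [pos_eq_mk, FreeGroup.toWord_mk, FreeGroup.IsReduced.reduce_eq]
  induction W with
  | nil => exact FreeGroup.IsReduced.nil
  | cons b W ih =>
    cases W with
    | nil => exact FreeGroup.IsReduced.singleton
    | cons b' W =>
      simp only [List.map_cons] at ih ⊢
      rw [FreeGroup.isReduced_cons_cons]
      exact ⟨fun _ => rfl, ih⟩

lemma pos_injective : Function.Injective pos := by
  intro W W' h
  have h1 := congrArg FreeGroup.toWord h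
  rw [toWord_pos, toWord_pos] at h1
  have h2 := congrArg (List.map Prod.fst) h1
  rw [List.map_map, List.map_map] at h2
  have h3 : (Prod.fst ∘ fun b : Bool => (b, true)) = id := rfl
  simpa [h3] using h2

lemma ex_pos (W : List Bool) : ex (pos W) = W.length := by
  induction W with
  | nil => rw [pos_nil, ex_one]; rfl
  | cons b W ih => rw [pos_cons, ex_mul, ex_of, ih, List.length_cons]; push_cast; ring

/-- the element attached to `(W, k, J)` in state `false` -/
def elF (W : List Bool) (k J : ℕ) : Grp :=
  (pos W, r (Int.cast (-(W.length : ℤ))), Multiplicative.ofAdd (2 * (k : ℤ)),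
    Multiplicative.ofAdd (J : ℤ))

/-- the element attached to `(W, k, J)` in state `true` -/
def elT (W : List Bool) (k J : ℕ) : Grp :=
  (pos W, sr (Int.cast (-(W.length : ℤ))), Multiplicative.ofAdd (2 * (k : ℤ) + 1),
    Multiplicative.ofAdd (J : ℤ))

lemma elF_nil : elF [] 0 0 = 1 := by
  simp only [elF, pos_nil, List.length_nil, Nat.cast_zero, mul_zero, neg_zero, Int.cast_zero]
  rfl

lemma prod4_mul (a a' : FreeGroup Bool) (b b' : DihedralGroup 0) (c c' d d' : Multiplicative ℤ) :
    ((a, b, c, d) : Grp) * (a', b', c', d') = (a * a', b * b', c * c', d * d') := rfl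

lemma prod4_inv (a : FreeGroup Bool) (b : DihedralGroup 0) (c d : Multiplicative ℤ) :
    ((a, b, c, d) : Grp)⁻¹ = (a⁻¹, b⁻¹, c⁻¹, d⁻¹) := rfl

lemma A_mul (W : List Bool) (k J : ℕ) : ga * gτ⁻¹ * elF W k J = elF (true :: W) k J := by
  simp only [ga, gτ, elF, prod4_mul, prod4_inv, pos_cons, inv_r, List.length_cons]
  simp

lemma B_mul (W : List Bool) (k J : ℕ) : gb * gτ⁻¹ * elF W k J = elF (false :: W) k J := by
  simp only [gb, gτ, elF, prod4_mul, prod4_inv, pos_cons, inv_r, List.length_cons]
  simp

lemma Q_mulF (W : List Bool) (k J : ℕ) : gσ * gs * elF W k J = elT W k J := by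
  simp only [gσ, gs, elF, elT, prod4_mul, sr_mul_r, one_mul, mul_one, zero_add, ← ofAdd_add]
  rw [add_comm (1 : ℤ)]

lemma Q_mulT (W : List Bool) (k J : ℕ) : gσ * gs * elT W k J = elF W (k + 1) J := by
  simp only [gσ, gs, elF, elT, prod4_mul, sr_mul_sr, one_mul, mul_one, sub_zero, ← ofAdd_add]
  congr 4
  push_cast; ring

lemma R_mul (W : List Bool) (k J : ℕ) : ga * gτ * gt * elT W k J = elT (true :: W) k (J + 1) := by
  simp only [ga, gτ, gt, elT, prod4_mul, r_mul_sr, one_mul, mul_one, pos_cons, ← ofAdd_add,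
    List.length_cons]
  congr 4
  · push_cast; ring
  · push_cast; ring

/-- the structure predicate -/
def Form : Bool → ℕ → Grp → Prop
  | false, n, g => ∃ W k J, g = elF W k J ∧ W.length + 2 * k = n ∧ J ≤ k * run W
  | true, n, g => ∃ W k J j, g = elT W k J ∧ W.length + 2 * k + 1 = n ∧ J ≤ k * run W + j ∧
      List.replicate j true <+: W

lemma structure_lemma (l : List Grp) (hl : ∀ x ∈ l, x ∈ S2 ∨ x⁻¹ ∈ S2) : ∀ p : Bool,
    0 ≤ cost p l.prod + 2 * l.length ∧
    (cost p l.prod + 2 * l.length = 0 → swp l.prod = p → Form p l.length l.prod) := by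
  induction l with
  | nil =>
    intro p
    rw [List.prod_nil, cost_one, swp_one]
    refine ⟨by simp, fun _ h => ?_⟩
    subst h
    exact ⟨[], 0, 0, elF_nil.symm, by simp, by simp⟩
  | cons u l ih =>
    intro p
    have hu := hl u (by simp)
    have hl' : ∀ x ∈ l, x ∈ S2 ∨ x⁻¹ ∈ S2 := fun x hx => hl x (by simp [hx])
    obtain ⟨h1, h2⟩ := cost_letter hu p
    obtain ⟨h3, h4⟩ := ih hl' (p ^^ swp u)
    rw [List.prod_cons, cost_mul, List.length_cons, swp_mul]
    push_cast
    refine ⟨by linarith, fun h5 h6 => ?_⟩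
    have h7 : cost p u + 2 = 0 := by linarith
    have h8 : cost (p ^^ swp u) l.prod + 2 * l.length = 0 := by linarith
    have h9 : swp l.prod = (p ^^ swp u) := by
      rw [← h6]; cases swp u <;> cases swp l.prod <;> rfl
    have h10 := h4 h8 h9
    rcases h2 h7 with ⟨rfl, rfl⟩ | ⟨rfl, rfl⟩ | rfl | ⟨rfl, rfl⟩
    · have hs : (false ^^ swp (ga * gτ⁻¹)) = false := rfl
      rw [hs] at h10
      obtain ⟨W, k, J, hg, hlen, hJ⟩ := h10
      refine ⟨true :: W, k, J, by rw [hg, A_mul], by simp; omega, ?_⟩
      exact hJ.trans (Nat.mul_le_mul_left _ (run_cons _ _))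
    · have hs : (false ^^ swp (gb * gτ⁻¹)) = false := rfl
      rw [hs] at h10
      obtain ⟨W, k, J, hg, hlen, hJ⟩ := h10
      refine ⟨false :: W, k, J, by rw [hg, B_mul], by simp; omega, ?_⟩
      exact hJ.trans (Nat.mul_le_mul_left _ (run_cons _ _))
    · cases p with
      | false =>
        have hs : (false ^^ swp (gσ * gs)) = true := rfl
        rw [hs] at h10
        obtain ⟨W, k, J, j, hg, hlen, hJ, hj⟩ := h10
        refine ⟨W, k + 1, J, by rw [hg, Q_mulT], by omega, hJ.trans ?_⟩
        rw [add_mul, one_mul]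
        exact Nat.add_le_add_left (HasRun.le_run hj.isInfix) _
      | true =>
        have hs : (true ^^ swp (gσ * gs)) = false := rfl
        rw [hs] at h10
        obtain ⟨W, k, J, hg, hlen, hJ⟩ := h10
        refine ⟨W, k, J, 0, by rw [hg, Q_mulF], by omega, by omega, by simp⟩
    · have hs : (true ^^ swp (ga * gτ * gt)) = true := rfl
      rw [hs] at h10
      obtain ⟨W, k, J, j, hg, hlen, hJ, hj⟩ := h10
      refine ⟨true :: W, k, J + 1, j + 1, by rw [hg, R_mul], by simp; omega, ?_, ?_⟩
      · have := Nat.mul_le_mul_left k (run_cons true W)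
        omega
      · rw [List.replicate_succ]
        exact (List.prefix_cons_inj true).2 hj

/-- costs of sphere elements are nonnegative -/
lemma cost_nonneg (p : Bool) (g : Grp) : 0 ≤ cost p g + 2 * wordLength S2 g := by
  obtain ⟨l, hl, rfl, hlen⟩ := exists_word closure_S2 g
  rw [← hlen]
  exact (structure_lemma l hl p).1

open Classical in
/-- the extremal elements of length `n` -/
noncomputable def vset (n : ℕ) : Finset Grp :=
  (sphere closure_S2 n).filter fun g => swp g = false ∧ cost false g + 2 * n = 0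

/-- the number of extremal elements of length `n` -/
noncomputable def vv (n : ℕ) : ℕ := (vset n).card

lemma vv_upper (n : ℕ) : vv n ≤
    ∑ k ∈ Finset.range (n / 2 + 1), ∑ W ∈ words (n - 2 * k), (1 + k * run W) := by
  classical
  have hsub : vset n ⊆ (Finset.range (n / 2 + 1)).biUnion fun k =>
      (words (n - 2 * k)).biUnion fun W =>
        (Finset.range (1 + k * run W)).image fun J => elF W k J := by
    intro g hg
    rw [vset, Finset.mem_filter, mem_sphere] at hg
    obtain ⟨hg1, hg2, hg3⟩ := hg
    obtain ⟨l, hl, rfl, hlen⟩ := exists_word closure_S2 g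
    rw [hg1] at hlen
    have := (structure_lemma l hl false).2 (by rw [hlen]; exact hg3) hg2
    obtain ⟨W, k, J, hg, hlen', hJ⟩ := this
    rw [Finset.mem_biUnion]
    refine ⟨k, by rw [Finset.mem_range]; omega, ?_⟩
    rw [Finset.mem_biUnion]
    refine ⟨W, by rw [mem_words]; omega, ?_⟩
    rw [Finset.mem_image]
    exact ⟨J, by rw [Finset.mem_range]; omega, hg.symm⟩
  calc vv n ≤ _ := Finset.card_le_card hsub
    _ ≤ ∑ k ∈ Finset.range (n / 2 + 1), _ := Finset.card_biUnion_le
    _ ≤ _ := by
      refine Finset.sum_le_sum fun k _ => ?_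
      refine Finset.card_biUnion_le.trans ?_
      refine Finset.sum_le_sum fun W _ => ?_
      refine Finset.card_image_le.trans ?_
      rw [Finset.card_range]

/-! ### lower bound -/

lemma prod_words_F (s : List Bool) (l : List Grp) (W : List Bool) (k J : ℕ)
    (hl : l.prod = elF W k J) :
    ((s.map fun b => if b then ga * gτ⁻¹ else gb * gτ⁻¹) ++ l).prod = elF (s ++ W) k J := by
  induction s with
  | nil => simpa using hl
  | cons b s ih =>
    rw [List.map_cons, List.cons_append, List.prod_cons, ih]
    cases b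
    · simp [B_mul]
    · simp [A_mul]

lemma prod_words_T (j : ℕ) (l : List Grp) (W : List Bool) (k J : ℕ)
    (hl : l.prod = elT W k J) :
    ((List.replicate j (ga * gτ * gt)) ++ l).prod =
      elT (List.replicate j true ++ W) k (J + j) := by
  induction j with
  | zero => simpa using hl
  | succ j ih =>
    rw [List.replicate_succ, List.cons_append, List.prod_cons, ih, R_mul, List.replicate_succ]
    rfl

lemma exists_word_elF {W : List Bool} {j : ℕ} (hj : HasRun j W) :
    ∃ l : List Grp, (∀ x ∈ l, x ∈ S2 ∨ x⁻¹ ∈ S2) ∧ l.prod = elF W 1 j ∧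
      l.length = W.length + 2 := by
  obtain ⟨s, t, hst⟩ := hj
  refine ⟨(s.map fun b => if b then ga * gτ⁻¹ else gb * gτ⁻¹) ++ ((gσ * gs) ::
    (List.replicate j (ga * gτ * gt) ++ ((gσ * gs) ::
      ((t.map fun b => if b then ga * gτ⁻¹ else gb * gτ⁻¹) ++ [])))), ?_, ?_, ?_⟩
  · have hmap : ∀ (s : List Bool) (x : Grp),
        x ∈ s.map (fun b => if b then ga * gτ⁻¹ else gb * gτ⁻¹) → x ∈ S2 := by
      intro s x hx
      rw [List.mem_map] at hx
      obtain ⟨b, -, rfl⟩ := hx
      rw [mem_S2]
      cases b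
      · right; left; simp
      · left; simp
    intro x hx
    left
    simp only [List.mem_append, List.mem_cons, List.not_mem_nil, or_false,
      List.mem_replicate] at hx
    rcases hx with h | rfl | ⟨-, rfl⟩ | rfl | h
    · exact hmap s x h
    · rw [mem_S2]; simp
    · rw [mem_S2]; simp
    · rw [mem_S2]; simp
    · exact hmap t x h
  · have h0 : ([] : List Grp).prod = elF [] 0 0 := by
      rw [elF_nil]; rfl
    have h1 := prod_words_F t [] [] 0 0 h0
    have h2 : ((gσ * gs) :: ((t.map fun b => if b then ga * gτ⁻¹ else gb * gτ⁻¹) ++ [])).prod =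
        elT (t ++ []) 0 0 := by
      rw [List.prod_cons, h1, Q_mulF]
    have h3 := prod_words_T j _ _ _ _ h2
    have h4 : ((gσ * gs) :: (List.replicate j (ga * gτ * gt) ++ ((gσ * gs) ::
      ((t.map fun b => if b then ga * gτ⁻¹ else gb * gτ⁻¹) ++ [])))).prod =
        elF (List.replicate j true ++ (t ++ [])) (0 + 1) (0 + j) := by
      rw [List.prod_cons, h3, Q_mulT]
    have h5 := prod_words_F s _ _ _ _ h4
    rw [h5, ← hst]
    simp
  · rw [← hst]
    simp
    ring

lemma elF_injective {W W' : List Bool} {k k' J J' : ℕ} (h : elF W k J = elF W' k' J') :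
    W = W' ∧ k = k' ∧ J = J' := by
  simp only [elF, Prod.mk.injEq] at h
  obtain ⟨h1, -, h2, h3⟩ := h
  refine ⟨pos_injective h1, ?_, ?_⟩
  · have := Multiplicative.ofAdd.injective h2
    omega
  · have := Multiplicative.ofAdd.injective h3
    omega

lemma psi_elF (W : List Bool) (J : ℕ) : psi (elF W 1 J) = W.length + 2 := by
  simp [psi, elF, ex_pos]

lemma cost_elF (W : List Bool) (J : ℕ) : cost false (elF W 1 J) = -2 * (W.length + 2) := by
  have : zi (Int.cast (-(W.length : ℤ))) = -(W.length : ℤ) := rfl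
  simp only [cost, psi2, elF, ex_pos, dex, sg, this]
  simp
  ring

lemma vv_lower (n : ℕ) : ∑ W ∈ words n, (run W + 1) ≤ vv (n + 2) := by
  classical
  have hsub : ((words n).sigma fun W => Finset.range (run W + 1)).image
      (fun p => elF p.1 1 p.2) ⊆ vset (n + 2) := by
    intro g hg
    rw [Finset.mem_image] at hg
    obtain ⟨⟨W, j⟩, hp, rfl⟩ := hg
    rw [Finset.mem_sigma, mem_words, Finset.mem_range] at hp
    obtain ⟨hlen, hj⟩ := hp
    simp only at hlen hj ⊢
    have hrun : HasRun j W := le_run_iff.1 (by omega)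
    obtain ⟨l, hl, hprod, hllen⟩ := exists_word_elF hrun
    have h1 : wordLength S2 (elF W 1 j) ≤ n + 2 := by
      rw [← hprod, ← hlen, ← hllen]; exact wordLength_le hl
    have h2 : ((n : ℤ) + 2) ≤ wordLength S2 (elF W 1 j) := by
      have := psi_le_wordLength (elF W 1 j)
      rw [psi_elF, hlen] at this
      exact this
    have h3 : wordLength S2 (elF W 1 j) = n + 2 := by omega
    rw [vset, Finset.mem_filter, mem_sphere]
    refine ⟨h3, rfl, ?_⟩
    rw [cost_elF, hlen]; push_cast; ring
  have hcard : (((words n).sigma fun W => Finset.range (run W + 1)).image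
      (fun p => elF p.1 1 p.2)).card = ∑ W ∈ words n, (run W + 1) := by
    rw [Finset.card_image_of_injective, Finset.card_sigma]
    · simp
    · rintro ⟨W, j⟩ ⟨W', j'⟩ h
      obtain ⟨h1, -, h2⟩ := elF_injective h
      simp only at h1 h2
      subst h1; subst h2; rfl
  rw [← hcard]
  exact Finset.card_le_card hsub

end CGS
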