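import Pool.Agent.CGS.Star

/-!
# The complete growth series of `ℤ`, `D_∞`, `F₂`, and of `(Grp, S1)`
-/

namespace CGS

open DihedralGroup

/-! ### two-sided geometric series -/

section geo
variable {G : Type} [Group G]

/-- `∑_{n ∈ ℤ} t^n z^{|n|}` -/
noncomputable def twoSided (t : G) : PowerSeries (MonoidAlgebra ℤ G) :=
  star (PowerSeries.monomial 1 (MonoidAlgebra.single t 1)) +
    star (PowerSeries.monomial 1 (MonoidAlgebra.single t⁻¹ 1)) - 1

lemma twoSided_mem (t : G) : twoSided t ∈ rationalSubring (MonoidAlgebra ℤ G) :=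
  Subring.sub_mem _ (Subring.add_mem _ (star_monomial_mem _) (star_monomial_mem _))
    (Subring.one_mem _)

open Classical in
lemma coeff_twoSided (t : G) (n : ℕ) (h : G) :
    (PowerSeries.coeff n (twoSided t)).coeff h =
      (if t ^ n = h then 1 else 0) + (if t⁻¹ ^ n = h then 1 else 0) -
        (if n = 0 ∧ 1 = h then 1 else 0) := by
  rw [twoSided, map_sub, map_add, coeff_star_monomial, coeff_star_monomial,
    MonoidAlgebra.single_pow, MonoidAlgebra.single_pow, PowerSeries.coeff_one,
    MonoidAlgebra.coeff_sub, MonoidAlgebra.coeff_add, Finsupp.sub_apply, Finsupp.add_apply,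
    MonoidAlgebra.coeff_single, MonoidAlgebra.coeff_single, Finsupp.single_apply,
    Finsupp.single_apply, one_pow]
  by_cases hn : n = 0
  · subst hn
    rw [if_pos rfl, MonoidAlgebra.one_def, MonoidAlgebra.coeff_single, Finsupp.single_apply]
    simp
  · rw [if_neg hn]
    simp [hn]

end geo

/-! ### ℤ -/

/-- generating set of `ℤ` -/
def SZ : Finset (Multiplicative ℤ) := {Multiplicative.ofAdd 1}

lemma wl_Z : (∀ g : Multiplicative ℤ, wordLength SZ g = (Multiplicative.toAdd g).natAbs) ∧
    Subgroup.closure (SZ : Set (Multiplicative ℤ)) = ⊤ := by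
  refine wordLength_eq_of (fun g : Multiplicative ℤ => (Multiplicative.toAdd g).natAbs) rfl ?_ ?_
  · intro s x hs
    have h : Multiplicative.toAdd s = 1 ∨ Multiplicative.toAdd s = -1 := by
      rcases hs with hs | hs
      · left
        rw [SZ, Finset.mem_singleton] at hs
        rw [hs]; rfl
      · right
        rw [SZ, Finset.mem_singleton] at hs
        have : Multiplicative.toAdd s⁻¹ = 1 := by rw [hs]; rfl
        rw [toAdd_inv] at this
        omega
    rw [toAdd_mul]
    omega
  · intro x hx
    have hx0 : Multiplicative.toAdd x ≠ 0 := by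
      intro h; exact hx (Multiplicative.toAdd.injective h)
    rcases lt_or_gt_of_ne hx0 with h | h
    · refine ⟨Multiplicative.ofAdd (-1), Multiplicative.ofAdd (Multiplicative.toAdd x + 1), ?_, ?_, ?_⟩
      · right; rw [SZ, Finset.mem_singleton, ← ofAdd_neg]; rfl
      · rw [← ofAdd_add]; simp
      · rw [toAdd_ofAdd]; omega
    · refine ⟨Multiplicative.ofAdd 1, Multiplicative.ofAdd (Multiplicative.toAdd x - 1), ?_, ?_, ?_⟩
      · left; rw [SZ, Finset.mem_singleton]
      · rw [← ofAdd_add]; simp
      · rw [toAdd_ofAdd]; omega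

lemma CG_Z : CG SZ = twoSided (Multiplicative.ofAdd 1) := by
  classical
  ext n h
  rw [coeff_CG_apply wl_Z.2, wl_Z.1, coeff_twoSided]
  have h1 : (Multiplicative.ofAdd (1 : ℤ)) ^ n = h ↔ Multiplicative.toAdd h = n := by
    rw [← ofAdd_nsmul, nsmul_eq_mul, mul_one]
    constructor
    · rintro rfl; rfl
    · intro h; rw [← h]; rfl
  have h2 : (Multiplicative.ofAdd (1 : ℤ))⁻¹ ^ n = h ↔ Multiplicative.toAdd h = -n := by
    rw [← ofAdd_neg, ← ofAdd_nsmul, nsmul_eq_mul, mul_neg, mul_one]
    constructor
    · rintro rfl; rfl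
    · intro h; rw [← h]; rfl
  have h3 : (1 : Multiplicative ℤ) = h ↔ Multiplicative.toAdd h = 0 := by
    rw [eq_comm]; exact toAdd_eq_zero.symm
  simp only [h1, h2, h3]
  split_ifs <;> omega

/-! ### `D_∞` -/

/-- generating set of `D_∞` -/
def SD : Finset (DihedralGroup 0) := {r 1, sr 0}

/-- word length in the infinite dihedral group -/
def lenD : DihedralGroup 0 → ℕ
  | r i => (zi i).natAbs
  | sr i => (zi i).natAbs + 1

lemma wl_D : (∀ g, wordLength SD g = lenD g) ∧
    Subgroup.closure (SD : Set (DihedralGroup 0)) = ⊤ := by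
  refine wordLength_eq_of lenD rfl ?_ ?_
  · intro s x hs
    have h : s = r 1 ∨ s = r (-1) ∨ s = sr 0 := by
      rcases hs with hs | hs
      · rw [SD, Finset.mem_insert, Finset.mem_singleton] at hs
        tauto
      · rw [SD, Finset.mem_insert, Finset.mem_singleton] at hs
        rcases hs with hs | hs
        · right; left
          rw [← inv_inv s, hs, inv_r]
        · right; right
          rw [← inv_inv s, hs, inv_sr]
    rcases h with rfl | rfl | rfl
    · cases x with
      | r i => rw [r_mul_r]; simp only [lenD, zi_add, zi_one]; omega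
      | sr i => rw [r_mul_sr]; simp only [lenD, zi_sub, zi_one]; omega
    · cases x with
      | r i => rw [r_mul_r]; simp only [lenD, zi_add, zi_neg, zi_one]; omega
      | sr i => rw [r_mul_sr]; simp only [lenD, zi_sub, zi_neg, zi_one]; omega
    · cases x with
      | r i => rw [sr_mul_r]; simp only [lenD, zi_add, zi_zero]; omega
      | sr i => rw [sr_mul_sr]; simp only [lenD, zi_sub, zi_zero]; omega
  · intro x hx
    cases x with
    | r i =>
      have hi : zi i ≠ 0 := by
        intro h
        have : i = 0 := h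
        exact hx (by rw [this]; rfl)
      rcases lt_or_gt_of_ne hi with h | h
      · refine ⟨r (-1), r (i + 1), ?_, ?_, ?_⟩
        · right; rw [SD, inv_r, neg_neg]; simp
        · rw [r_mul_r]; congr 1; ring
        · simp only [lenD, zi_add, zi_one]; omega
      · refine ⟨r 1, r (i - 1), ?_, ?_, ?_⟩
        · left; rw [SD]; simp
        · rw [r_mul_r]; congr 1; ring
        · simp only [lenD, zi_sub, zi_one]; omega
    | sr i =>
      refine ⟨sr 0, r i, ?_, ?_, ?_⟩
      · left; rw [SD]; simp
      · rw [sr_mul_r, zero_add]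
      · simp only [lenD]

lemma coeff_twoSided_r (n : ℕ) (h : DihedralGroup 0) :
    (PowerSeries.coeff n (twoSided (r 1 : DihedralGroup 0))).coeff h =
      match h with
      | r i => if (zi i).natAbs = n then 1 else 0
      | sr _ => 0 := by
  classical
  have hpow : ∀ n : ℕ, (r 1 : DihedralGroup 0) ^ n = r (n : ZMod 0) := fun n => r_one_pow n
  have hpow' : ∀ n : ℕ, (r 1 : DihedralGroup 0)⁻¹ ^ n = r (-(n : ZMod 0)) := by
    intro n
    rw [inv_pow, hpow, inv_r]
  have hz : ∀ n : ℕ, zi (n : ZMod 0) = n := by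
    intro n
    induction n with
    | zero => rfl
    | succ n ih => rw [Nat.cast_succ, zi_add, ih, zi_one]; push_cast; ring
  rw [coeff_twoSided, hpow, hpow']
  cases h with
  | r i =>
    simp only
    have h1 : (r (n : ZMod 0) = r i) ↔ zi i = n := by
      rw [← hz n]
      constructor
      · intro h; rw [r.inj h]
      · intro h; rw [zi_inj h]
    have h2 : (r (-(n : ZMod 0)) = r i) ↔ zi i = -n := by
      rw [← hz n, ← zi_neg]
      constructor
      · intro h; rw [r.inj h]
      · intro h; rw [zi_inj h]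
    have h3 : ((1 : DihedralGroup 0) = r i) ↔ zi i = 0 := by
      rw [← zi_zero, one_def]
      constructor
      · intro h; rw [r.inj h]
      · intro h; rw [zi_inj h]
    simp only [h1, h2, h3]
    split_ifs <;> omega
  | sr i =>
    simp only
    have h1 : ∀ j : ZMod 0, (r j = sr i) ↔ False := fun j => ⟨fun h => (by cases h), False.elim⟩
    have h3 : ((1 : DihedralGroup 0) = sr i) ↔ False := by rw [one_def]; exact h1 0
    simp only [h1, h3]
    simp

lemma CG_D : CG SD = (1 + PowerSeries.monomial 1 (MonoidAlgebra.single (sr 0) 1)) *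
    twoSided (r 1 : DihedralGroup 0) := by
  classical
  ext n h
  rw [coeff_CG_apply wl_D.2, wl_D.1, add_mul, one_mul, map_add, MonoidAlgebra.coeff_add,
    Finsupp.add_apply, coeff_twoSided_r]
  have hmon : (PowerSeries.coeff n ((PowerSeries.monomial 1 (MonoidAlgebra.single (sr 0) 1)) *
      twoSided (r 1 : DihedralGroup 0))).coeff h = if n = 0 then 0 else
      (PowerSeries.coeff (n - 1) (twoSided (r 1 : DihedralGroup 0))).coeff ((sr 0)⁻¹ * h) := by
    cases n with
    | zero =>
      rw [PowerSeries.coeff_mul]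
      simp [PowerSeries.coeff_monomial]
    | succ n =>
      rw [if_neg (by omega), PowerSeries.coeff_mul, Finset.sum_eq_single (1, n)]
      · rw [PowerSeries.coeff_monomial_same, MonoidAlgebra.coeff_single_mul_apply, one_mul]
        simp
      · rintro ⟨i, j⟩ hij hne
        have := Finset.HasAntidiagonal.mem_antidiagonal.1 hij
        simp only at this
        have hi : i ≠ 1 := by
          rintro rfl
          exact hne (by rw [Prod.mk.injEq]; exact ⟨rfl, by omega⟩)
        rw [PowerSeries.coeff_monomial, if_neg hi, zero_mul]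
      · intro h
        exact absurd (Finset.HasAntidiagonal.mem_antidiagonal.2 (by simp; ring)) h
  rw [hmon, coeff_twoSided_r]
  cases h with
  | r i =>
    simp only [lenD, inv_sr, sr_mul_r]
    split_ifs <;> simp_all
  | sr i =>
    simp only [lenD, inv_sr, sr_mul_sr, sub_zero]
    split_ifs <;> omega

lemma CG_D_mem : CG SD ∈ rationalSubring (MonoidAlgebra ℤ (DihedralGroup 0)) := by
  rw [CG_D]
  exact Subring.mul_mem _ (Subring.add_mem _ (Subring.one_mem _) (monomial_mem_rational _ _))
    (twoSided_mem _)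

lemma CG_Z_mem : CG SZ ∈ rationalSubring (MonoidAlgebra ℤ (Multiplicative ℤ)) := by
  rw [CG_Z]; exact twoSided_mem _

/-! ### `F₂` -/

/-- generating set of `F₂` -/
def SF : Finset (FreeGroup Bool) := {FreeGroup.of true, FreeGroup.of false}

/-- a letter -/
def lt (y : Bool × Bool) : FreeGroup Bool := FreeGroup.mk [y]

lemma lt_mem (y : Bool × Bool) : lt y ∈ SF ∨ (lt y)⁻¹ ∈ SF := by
  obtain ⟨x, b⟩ := y
  cases b
  · right
    have : (lt (x, false))⁻¹ = FreeGroup.of x := by rw [lt, FreeGroup.inv_mk]; rfl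
    rw [this, SF]
    cases x <;> simp
  · left
    have : lt (x, true) = FreeGroup.of x := rfl
    rw [this, SF]
    cases x <;> simp

lemma lt_inv (y : Bool × Bool) : (lt y)⁻¹ = lt (y.1, !y.2) := by
  rw [lt, FreeGroup.inv_mk]; rfl

lemma toWord_lt_mul {h : FreeGroup Bool} {y u : Bool × Bool} {tl : List (Bool × Bool)}
    (hh : h.toWord = u :: tl) :
    (lt y * h).toWord = if y.1 = u.1 ∧ y.2 = !u.2 then tl else y :: u :: tl := by
  have h1 : lt y * h = FreeGroup.mk (y :: h.toWord) := by
    conv_lhs => rw [← FreeGroup.mk_toWord (x := h)]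
    rfl
  rw [h1, FreeGroup.toWord_mk, FreeGroup.reduce.cons, FreeGroup.reduce_toWord, hh]

lemma norm_lt_mul {h : FreeGroup Bool} {y u : Bool × Bool} {tl : List (Bool × Bool)}
    (hh : h.toWord = u :: tl) :
    (lt y * h).norm = if y.1 = u.1 ∧ y.2 = !u.2 then h.norm - 1 else h.norm + 1 := by
  rw [FreeGroup.norm, toWord_lt_mul hh]
  have : h.norm = tl.length + 1 := by rw [FreeGroup.norm, hh]; rfl
  rw [this]
  split_ifs <;> simp

lemma norm_lt (y : Bool × Bool) : (lt y).norm = 1 := by
  rw [lt, FreeGroup.norm, FreeGroup.toWord_mk, FreeGroup.IsReduced.reduce_eq]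
  · rfl
  · exact FreeGroup.IsReduced.singleton

lemma wl_F : (∀ g, wordLength SF g = g.norm) ∧
    Subgroup.closure (SF : Set (FreeGroup Bool)) = ⊤ := by
  refine wordLength_eq_of FreeGroup.norm FreeGroup.norm_one ?_ ?_
  · intro s x hs
    have h1 : s.norm ≤ 1 := by
      rcases hs with hs | hs
      · rw [SF, Finset.mem_insert, Finset.mem_singleton] at hs
        rcases hs with rfl | rfl <;> rw [FreeGroup.norm_of]
      · rw [SF, Finset.mem_insert, Finset.mem_singleton] at hs
        rw [← FreeGroup.norm_inv_eq]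
        rcases hs with hs | hs <;> rw [hs, FreeGroup.norm_of]
    have := FreeGroup.norm_mul_le s x
    omega
  · intro x hx
    cases hw : x.toWord with
    | nil => exact absurd (FreeGroup.toWord_eq_nil_iff.1 hw) hx
    | cons u tl =>
      have hinv : lt u * ((lt u)⁻¹ * x) = x := by group
      refine ⟨lt u, (lt u)⁻¹ * x, lt_mem u, hinv.symm, ?_⟩
      rw [lt_inv, norm_lt_mul hw, if_pos ⟨rfl, rfl⟩]
      have : x.norm = tl.length + 1 := by rw [FreeGroup.norm, hw]; rfl
      omega

/-- the sum of the letters -/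
noncomputable def eF : MonoidAlgebra ℤ (FreeGroup Bool) :=
  ∑ y : Bool × Bool, MonoidAlgebra.single (lt y) 1

lemma eF_mul_apply (f : MonoidAlgebra ℤ (FreeGroup Bool)) (h : FreeGroup Bool) :
    (eF * f).coeff h = ∑ y : Bool × Bool, f.coeff ((lt y)⁻¹ * h) := by
  rw [eF, Finset.sum_mul, MonoidAlgebra.coeff_sum, Finsupp.finsetSum_apply]
  refine Finset.sum_congr rfl fun y _ => ?_
  rw [MonoidAlgebra.coeff_single_mul_apply, one_mul]

lemma sum_norm (n : ℕ) (h : FreeGroup Bool) :
    ∑ y : Bool × Bool, (if ((lt y)⁻¹ * h).norm = n then (1 : ℤ) else 0) =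
      if h.norm = 0 then (if n = 1 then 4 else 0)
      else (if h.norm = n + 1 then 1 else 0) + 3 * (if h.norm + 1 = n then 1 else 0) := by
  cases hw : h.toWord with
  | nil =>
    have h1 : h = 1 := FreeGroup.toWord_eq_nil_iff.1 hw
    subst h1
    simp only [mul_one, FreeGroup.norm_inv_eq, norm_lt, FreeGroup.norm_one, if_true]
    by_cases hn : n = 1
    · subst hn; simp
    · rw [if_neg hn]
      simp [Ne.symm hn]
  | cons u tl =>
    have hn : h.norm = tl.length + 1 := by rw [FreeGroup.norm, hw]; rfl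
    simp only [lt_inv, norm_lt_mul hw]
    rw [if_neg (by omega : ¬ h.norm = 0), hn]
    obtain ⟨x, b⟩ := u
    simp only [Fintype.sum_prod_type, Fintype.sum_bool]
    cases x <;> cases b <;> simp <;> split_ifs <;> omega

lemma CG_F : (1 - (PowerSeries.monomial 1 eF - PowerSeries.monomial 2 3)) * CG SF =
    1 - PowerSeries.monomial 2 1 := by
  classical
  have hco : ∀ (a : MonoidAlgebra ℤ (FreeGroup Bool)) (m n : ℕ)
      (F : PowerSeries (MonoidAlgebra ℤ (FreeGroup Bool))),
      PowerSeries.coeff n (PowerSeries.monomial m a * F) =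
        if m ≤ n then a * PowerSeries.coeff (n - m) F else 0 := by
    intro a m n F
    rw [PowerSeries.coeff_mul]
    split_ifs with hmn
    · rw [Finset.sum_eq_single (m, n - m)]
      · rw [PowerSeries.coeff_monomial_same]
      · rintro ⟨i, j⟩ hij hne
        have := Finset.HasAntidiagonal.mem_antidiagonal.1 hij
        simp only at this
        have hi : i ≠ m := by
          rintro rfl
          exact hne (by rw [Prod.mk.injEq]; exact ⟨rfl, by omega⟩)
        rw [PowerSeries.coeff_monomial, if_neg hi, zero_mul]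
      · intro h
        exact absurd (Finset.HasAntidiagonal.mem_antidiagonal.2 (by simp only; omega)) h
    · refine Finset.sum_eq_zero fun x hx => ?_
      have := Finset.HasAntidiagonal.mem_antidiagonal.1 hx
      rw [PowerSeries.coeff_monomial, if_neg (by omega), zero_mul]
  have hone : ∀ h : FreeGroup Bool, (1 : MonoidAlgebra ℤ (FreeGroup Bool)).coeff h =
      if h.norm = 0 then 1 else 0 := by
    intro h
    rw [MonoidAlgebra.one_def, MonoidAlgebra.coeff_single, Finsupp.single_apply]
    by_cases hh : h = 1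
    · subst hh; simp
    · rw [if_neg (Ne.symm hh), if_neg (fun h0 => hh (FreeGroup.norm_eq_zero.1 h0))]
  have hthree : ∀ (f : MonoidAlgebra ℤ (FreeGroup Bool)) (h : FreeGroup Bool),
      ((3 : MonoidAlgebra ℤ (FreeGroup Bool)) * f).coeff h = 3 * f.coeff h := by
    intro f h
    have : (3 : MonoidAlgebra ℤ (FreeGroup Bool)) = MonoidAlgebra.single 1 3 := by
      ext g
      rw [MonoidAlgebra.coeff_ofNat]; rfl
    rw [this, MonoidAlgebra.coeff_single_mul_apply]
    simp
  ext n h
  rw [sub_mul, one_mul, sub_mul, map_sub, map_sub, hco, hco, map_sub, PowerSeries.coeff_one,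
    PowerSeries.coeff_monomial]
  simp only [MonoidAlgebra.coeff_sub, Finsupp.sub_apply]
  rw [coeff_CG_apply wl_F.2, wl_F.1]
  have he : ∀ m, (eF * PowerSeries.coeff m (CG SF)).coeff h =
      if h.norm = 0 then (if m = 1 then 4 else 0)
      else (if h.norm = m + 1 then 1 else 0) + 3 * (if h.norm + 1 = m then 1 else 0) := by
    intro m
    rw [eF_mul_apply, ← sum_norm m h]
    refine Finset.sum_congr rfl fun y _ => ?_
    rw [coeff_CG_apply wl_F.2, wl_F.1]
  have h3 : ∀ m, ((3 : MonoidAlgebra ℤ (FreeGroup Bool)) * PowerSeries.coeff m (CG SF)).coeff h =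
      3 * (if h.norm = m then 1 else 0) := by
    intro m
    rw [hthree, coeff_CG_apply wl_F.2, wl_F.1]
  rcases n with _ | _ | n
  · simp only [show ¬ (1 ≤ 0) by omega, show ¬ (2 ≤ 0) by omega, if_false, if_true,
      MonoidAlgebra.coeff_zero, Finsupp.zero_apply, hone, show ¬ ((0 : ℕ) = 2) by omega]
    simp
  · simp only [show (1 ≤ 0 + 1) by omega, show ¬ (2 ≤ 0 + 1) by omega, if_false, if_true,
      MonoidAlgebra.coeff_zero, Finsupp.zero_apply, show ¬ ((0 : ℕ) + 1 = 2) by omega,
      show ¬ ((0 : ℕ) + 1 = 0) by omega, show 0 + 1 - 1 = 0 by omega, he]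
    split_ifs <;> first | omega | (simp; done) | (simp_all; done)
  · simp only [show (1 ≤ n + 1 + 1) by omega, show (2 ≤ n + 1 + 1) by omega, if_true,
      show n + 1 + 1 - 1 = n + 1 by omega, show n + 1 + 1 - 2 = n by omega, he, h3,
      show ¬ (n + 1 + 1 = 0) by omega, if_false, MonoidAlgebra.coeff_zero, Finsupp.zero_apply]
    by_cases hn : n = 0
    · subst hn
      simp only [show (0 + 1 + 1 = 2) by omega, if_true, hone]
      split_ifs <;> omega
    · simp only [show ¬ (n + 1 + 1 = 2) by omega, if_false, MonoidAlgebra.coeff_zero,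
        Finsupp.zero_apply]
      split_ifs <;> omega

lemma CG_F_mem : CG SF ∈ rationalSubring (MonoidAlgebra ℤ (FreeGroup Bool)) := by
  have hA : PowerSeries.constantCoeff (PowerSeries.monomial 1 eF - PowerSeries.monomial 2 3) =
      (0 : MonoidAlgebra ℤ (FreeGroup Bool)) := by
    rw [map_sub, ← PowerSeries.coeff_zero_eq_constantCoeff_apply,
      ← PowerSeries.coeff_zero_eq_constantCoeff_apply, PowerSeries.coeff_monomial,
      PowerSeries.coeff_monomial]
    simp
  rw [eq_star_mul hA CG_F]
  exact Subring.mul_mem _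
    (star_mem_rational (Subring.sub_mem _ (monomial_mem_rational _ _)
      (monomial_mem_rational _ _)) hA)
    (Subring.sub_mem _ (Subring.one_mem _) (monomial_mem_rational _ _))

/-! ### the product -/

lemma S1_eq : S1 = prodGen SF (prodGen SD (prodGen SZ SZ)) := by
  classical
  ext ⟨w, d, x, y⟩
  simp only [S1, ga, gb, gτ, gσ, gs, gt, Finset.mem_insert, Finset.mem_singleton, mem_prodGen,
    SF, SD, SZ, Prod.mk.injEq, Prod.mk_eq_one]
  tauto

theorem CG_S1_mem : CG S1 ∈ rationalSubring (MonoidAlgebra ℤ Grp) := by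
  rw [S1_eq]
  have h1 := wordLength_prodGen wl_Z.2 wl_Z.2
  have h2 := wordLength_prodGen wl_D.2 h1.2
  exact CG_prodGen_mem wl_F.2 h2.2 CG_F_mem
    (CG_prodGen_mem wl_D.2 h1.2 CG_D_mem (CG_prodGen_mem wl_Z.2 wl_Z.2 CG_Z_mem CG_Z_mem))

end CGS
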