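import Mathlib

/-!
# Specialisation at `ε = 0` of algebraic relations
-/

namespace CGS

open Polynomial

/-- the field `ℚ(ε)` -/
abbrev kk : Type := FractionRing ℚ[X]

lemma eval₂_map_powerSeries {A B : Type} [CommRing A] [CommRing B] (f : A →+* B)
    (P : A[X][X]) (x : PowerSeries A) :
    PowerSeries.map f (P.eval₂ (coeToPowerSeries.ringHom) x) =
      (P.map (mapRingHom f)).eval₂ (coeToPowerSeries.ringHom) (PowerSeries.map f x) := by
  rw [eval₂_map, hom_eval₂]
  congr 1
  ext <;> simp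

/-- clearing denominators -/
lemma clear_denominators (x : PowerSeries ℚ[X]) (P : kk[X][X]) (hP : P ≠ 0)
    (h : P.eval₂ (coeToPowerSeries.ringHom) (PowerSeries.map (algebraMap ℚ[X] kk) x) = 0) :
    ∃ P1 : ℚ[X][X][X], P1 ≠ 0 ∧ P1.eval₂ (coeToPowerSeries.ringHom) x = 0 := by
  let _ : Algebra ℚ[X][X] kk[X] := Polynomial.algebra ℚ[X] kk
  have _ := Polynomial.isLocalization (nonZeroDivisors ℚ[X]) kk
  obtain ⟨b, hbm, hb⟩ := IsLocalization.integerNormalization_spec
    ((nonZeroDivisors ℚ[X]).map C) P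
  set P1 := IsLocalization.integerNormalization ((nonZeroDivisors ℚ[X]).map C) P with hP1
  have halg : (algebraMap ℚ[X][X] kk[X]) = mapRingHom (algebraMap ℚ[X] kk) := rfl
  have hb0 : (b : ℚ[X][X]) ≠ 0 := by
    obtain ⟨c, hc, hcb⟩ := hbm
    rw [← hcb]
    exact C_ne_zero.2 (nonZeroDivisors.ne_zero hc)
  have hinj : Function.Injective (mapRingHom (algebraMap ℚ[X] kk)) :=
    Polynomial.map_injective _ (IsFractionRing.injective ℚ[X] kk)
  have hb1 : algebraMap ℚ[X][X] kk[X] (b : ℚ[X][X]) ≠ 0 := by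
    rw [halg]
    intro h0
    exact hb0 (hinj (by rw [h0, map_zero]))
  have hsm : (b : ℚ[X][X]) • P = C (algebraMap ℚ[X][X] kk[X] (b : ℚ[X][X])) * P := by
    ext i : 1
    rw [coeff_smul, coeff_C_mul, Algebra.smul_def]
  refine ⟨P1, ?_, ?_⟩
  · rintro h0
    rw [h0, Polynomial.map_zero] at hb
    rw [hsm] at hb
    exact mul_ne_zero (C_ne_zero.2 hb1) hP hb.symm
  · have hinj2 : Function.Injective (PowerSeries.map (algebraMap ℚ[X] kk)) := by
      intro a c hac
      ext n : 1
      have := congrArg (PowerSeries.coeff n) hac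
      rw [PowerSeries.coeff_map, PowerSeries.coeff_map] at this
      exact IsFractionRing.injective ℚ[X] kk this
    apply hinj2
    rw [eval₂_map_powerSeries, map_zero, ← halg, hb, hsm, eval₂_mul, h, mul_zero]

/-- dividing by a power of `ε` and setting `ε = 0` -/
lemma specialise_aux (x : PowerSeries ℚ[X]) (N : ℕ) : ∀ P : ℚ[X][X][X], P ≠ 0 →
    P.leadingCoeff.leadingCoeff.natDegree ≤ N → P.eval₂ (coeToPowerSeries.ringHom) x = 0 →
    ∃ P0 : ℚ[X][X], P0 ≠ 0 ∧
      P0.eval₂ (coeToPowerSeries.ringHom) (PowerSeries.map (evalRingHom 0) x) = 0 := by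
  induction N using Nat.strong_induction_on with
  | _ N ih =>
    intro P hP hN h
    by_cases h0 : P.map (mapRingHom (evalRingHom (0 : ℚ))) = 0
    · have hdvd : C (C (X : ℚ[X])) ∣ P := by
        rw [C_dvd_iff_dvd_coeff]
        intro i
        rw [C_dvd_iff_dvd_coeff]
        intro j
        rw [X_dvd_iff]
        have := congrArg (fun p => (p.coeff i).coeff j) h0
        simp only [coeff_map, coe_mapRingHom, coe_evalRingHom, coeff_zero] at this
        rw [coeff_zero_eq_eval_zero]
        exact this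
      obtain ⟨P', hP'⟩ := hdvd
      have hP'0 : P' ≠ 0 := by
        rintro rfl; exact hP (by rw [hP', mul_zero])
      have hlc : P.leadingCoeff.leadingCoeff = X * P'.leadingCoeff.leadingCoeff := by
        rw [hP', leadingCoeff_mul, leadingCoeff_C, leadingCoeff_mul, leadingCoeff_C]
      have hlc' : P.leadingCoeff.leadingCoeff.natDegree =
          1 + P'.leadingCoeff.leadingCoeff.natDegree := by
        rw [hlc, natDegree_mul X_ne_zero
          (leadingCoeff_ne_zero.2 (leadingCoeff_ne_zero.2 hP'0)), natDegree_X]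
      refine ih (P'.leadingCoeff.leadingCoeff.natDegree) (by omega) P' hP'0 le_rfl ?_
      rw [hP', eval₂_mul, eval₂_C] at h
      refine (mul_eq_zero.1 h).resolve_left ?_
      rw [coeToPowerSeries.ringHom_apply]
      intro h1
      exact (C_ne_zero.2 X_ne_zero) (Polynomial.coe_eq_zero_iff.1 h1)
    · refine ⟨_, h0, ?_⟩
      rw [← eval₂_map_powerSeries, h, map_zero]

theorem specialise (x : PowerSeries ℚ[X]) (P : kk[X][X]) (hP : P ≠ 0)
    (h : P.eval₂ (coeToPowerSeries.ringHom) (PowerSeries.map (algebraMap ℚ[X] kk) x) = 0) :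
    ∃ P0 : ℚ[X][X], P0 ≠ 0 ∧
      P0.eval₂ (coeToPowerSeries.ringHom) (PowerSeries.map (evalRingHom 0) x) = 0 := by
  obtain ⟨P1, h1, h2⟩ := clear_denominators x P hP h
  exact specialise_aux x _ P1 h1 le_rfl h2

end CGS
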