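import Pool.Agent.CGS.Coc

/-!
# The rational subring, products
-/

namespace CGS

section star
variable {R : Type} [Ring R]

lemma coeff_pow_of_lt {A : PowerSeries R} (hA : PowerSeries.constantCoeff A = 0) (k : ℕ) :
    ∀ n, n < k → PowerSeries.coeff n (A ^ k) = 0 := by
  induction k with
  | zero => intro n hn; omega
  | succ k ih =>
    intro n hn
    rw [pow_succ, PowerSeries.coeff_mul]
    refine Finset.sum_eq_zero fun x hx => ?_
    have hx' := Finset.HasAntidiagonal.mem_antidiagonal.1 hx
    rcases Nat.eq_zero_or_pos x.2 with h | h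
    · rw [h, PowerSeries.coeff_zero_eq_constantCoeff_apply, hA, mul_zero]
    · rw [ih x.1 (by omega), zero_mul]

lemma coeff_star_eq {A : PowerSeries R} (hA : PowerSeries.constantCoeff A = 0) {n N : ℕ}
    (hN : n ≤ N) : PowerSeries.coeff n (star A) =
      ∑ k ∈ Finset.range (N + 1), PowerSeries.coeff n (A ^ k) := by
  rw [star, PowerSeries.coeff_mk]
  refine Finset.sum_subset ?_ ?_
  · intro k hk
    rw [Finset.mem_range] at hk ⊢
    omega
  · intro k _ hk
    rw [Finset.mem_range, not_lt] at hk
    exact coeff_pow_of_lt hA k n (by omega)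

lemma star_mul_one_sub {A : PowerSeries R} (hA : PowerSeries.constantCoeff A = 0) :
    star A * (1 - A) = 1 := by
  have h1 : ∀ n, PowerSeries.coeff n (star A * A) =
      ∑ k ∈ Finset.range (n + 1), PowerSeries.coeff n (A ^ (k + 1)) := by
    intro n
    rw [PowerSeries.coeff_mul]
    have h2 : ∀ x ∈ Finset.HasAntidiagonal.antidiagonal n,
        PowerSeries.coeff x.1 (star A) * PowerSeries.coeff x.2 A =
        ∑ k ∈ Finset.range (n + 1), PowerSeries.coeff x.1 (A ^ k) * PowerSeries.coeff x.2 A := by
      intro x hx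
      have hx' := Finset.HasAntidiagonal.mem_antidiagonal.1 hx
      rw [coeff_star_eq hA (show x.1 ≤ n by omega), Finset.sum_mul]
    rw [Finset.sum_congr rfl h2, Finset.sum_comm]
    refine Finset.sum_congr rfl fun k _ => ?_
    rw [pow_succ, PowerSeries.coeff_mul]
  ext n
  rw [mul_sub, mul_one, map_sub, h1, coeff_star_eq hA le_rfl, Finset.sum_range_succ',
    Finset.sum_range_succ (fun k => PowerSeries.coeff n (A ^ (k + 1))),
    coeff_pow_of_lt hA (n + 1) n (by omega), pow_zero]
  abel

lemma eq_star_mul {A B C : PowerSeries R} (hA : PowerSeries.constantCoeff A = 0)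
    (h : (1 - A) * C = B) : C = star A * B := by
  rw [← h, ← mul_assoc, star_mul_one_sub hA, one_mul]

lemma coeff_star_monomial (a : R) (n : ℕ) :
    PowerSeries.coeff n (star (PowerSeries.monomial 1 a)) = a ^ n := by
  have hA : PowerSeries.constantCoeff (PowerSeries.monomial 1 a) = (0 : R) := by
    rw [← PowerSeries.coeff_zero_eq_constantCoeff_apply, PowerSeries.coeff_monomial]
    simp
  have hpow : ∀ k, (PowerSeries.monomial 1 a) ^ k = PowerSeries.monomial k (a ^ k) := by
    intro k
    induction k with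
    | zero => simp [PowerSeries.monomial_zero_eq_C_apply]
    | succ k ih =>
      rw [pow_succ, ih, PowerSeries.monomial_mul_monomial, pow_succ]
  rw [coeff_star_eq hA le_rfl, Finset.sum_eq_single n]
  · rw [hpow, PowerSeries.coeff_monomial_same]
  · intro k _ hk
    rw [hpow, PowerSeries.coeff_monomial, if_neg (Ne.symm hk)]
  · intro h; simp at h

lemma coe_mem_rational (p : Polynomial R) : (p : PowerSeries R) ∈ rationalSubring R := by
  rw [rationalSubring, Subring.mem_sInf]
  intro T hT
  exact hT.1 p

lemma star_mem_rational {A : PowerSeries R} (hA : A ∈ rationalSubring R)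
    (h0 : PowerSeries.constantCoeff A = 0) : star A ∈ rationalSubring R := by
  rw [rationalSubring, Subring.mem_sInf] at hA ⊢
  intro T hT
  exact hT.2 A (hA T hT) h0

lemma monomial_mem_rational (n : ℕ) (a : R) :
    PowerSeries.monomial n a ∈ rationalSubring R := by
  rw [← Polynomial.coe_monomial]
  exact coe_mem_rational _

lemma star_monomial_mem (a : R) : star (PowerSeries.monomial 1 a) ∈ rationalSubring R := by
  refine star_mem_rational (monomial_mem_rational 1 a) ?_
  rw [← PowerSeries.coeff_zero_eq_constantCoeff_apply, PowerSeries.coeff_monomial]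
  simp

variable {R' : Type} [Ring R']

lemma map_star (f : R →+* R') (A : PowerSeries R) :
    PowerSeries.map f (star A) = star (PowerSeries.map f A) := by
  ext n
  rw [PowerSeries.coeff_map, star, star, PowerSeries.coeff_mk, PowerSeries.coeff_mk, map_sum]
  refine Finset.sum_congr rfl fun k _ => ?_
  rw [← PowerSeries.coeff_map, map_pow]

lemma map_mem_rational (f : R →+* R') {A : PowerSeries R} (hA : A ∈ rationalSubring R) :
    PowerSeries.map f A ∈ rationalSubring R' := by
  have hA' := hA
  rw [rationalSubring, Subring.mem_sInf] at hA'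
  have := hA' ((rationalSubring R').comap (PowerSeries.map f)) ⟨?_, ?_⟩
  · exact this
  · intro p
    rw [Subring.mem_comap]
    have : PowerSeries.map f (p : PowerSeries R) = ((p.map f : Polynomial R') : PowerSeries R') := by
      ext n
      rw [PowerSeries.coeff_map, Polynomial.coeff_coe, Polynomial.coeff_coe, Polynomial.coeff_map]
    rw [this]
    exact coe_mem_rational _
  · intro A hA h0
    rw [Subring.mem_comap] at hA ⊢
    rw [map_star]
    refine star_mem_rational hA ?_
    rw [← PowerSeries.coeff_zero_eq_constantCoeff_apply, PowerSeries.coeff_map,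
      PowerSeries.coeff_zero_eq_constantCoeff_apply, h0, map_zero]

end star

/-! ### word length criteria -/

section wl
variable {G : Type} [Group G]

lemma wordLength_eq_of {S : Finset G} (ℓ : G → ℕ) (h1 : ℓ 1 = 0)
    (h2 : ∀ s x, (s ∈ S ∨ s⁻¹ ∈ S) → ℓ (s * x) ≤ ℓ x + 1)
    (h3 : ∀ x, x ≠ 1 → ∃ s y, (s ∈ S ∨ s⁻¹ ∈ S) ∧ x = s * y ∧ ℓ x = ℓ y + 1) :
    (∀ g, wordLength S g = ℓ g) ∧ Subgroup.closure (S : Set G) = ⊤ := by
  have hlow : ∀ l : List G, (∀ x ∈ l, x ∈ S ∨ x⁻¹ ∈ S) → ℓ l.prod ≤ l.length := by
    intro l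
    induction l with
    | nil => intro _; simp [h1]
    | cons s l ih =>
      intro hl
      rw [List.prod_cons, List.length_cons]
      exact (h2 _ _ (hl s (by simp))).trans
        (Nat.add_le_add_right (ih fun x hx => hl x (by simp [hx])) 1)
  have hup : ∀ n, ∀ g, ℓ g = n → ∃ l : List G, (∀ x ∈ l, x ∈ S ∨ x⁻¹ ∈ S) ∧ l.prod = g ∧
      l.length = n := by
    intro n
    induction n with
    | zero =>
      intro g hg
      by_cases hg1 : g = 1
      · subst hg1
        exact ⟨[], by simp, rfl, rfl⟩
      · obtain ⟨s, y, -, -, h⟩ := h3 g hg1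
        omega
    | succ n ih =>
      intro g hg
      by_cases hg1 : g = 1
      · subst hg1
        omega
      · obtain ⟨s, y, hs, rfl, h⟩ := h3 g hg1
        obtain ⟨l, hl, hp, hlen⟩ := ih y (by omega)
        refine ⟨s :: l, ?_, by rw [List.prod_cons, hp], by rw [List.length_cons, hlen]⟩
        intro x hx
        rcases List.mem_cons.1 hx with rfl | hx
        · exact hs
        · exact hl x hx
  have hcl : Subgroup.closure (S : Set G) = ⊤ := by
    rw [Subgroup.eq_top_iff']
    intro g
    obtain ⟨l, hl, hp, -⟩ := hup _ g rfl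
    rw [← hp]
    refine Subgroup.list_prod_mem _ fun x hx => ?_
    rcases hl x hx with h | h
    · exact Subgroup.subset_closure h
    · have := (Subgroup.closure (S : Set G)).inv_mem (Subgroup.subset_closure h)
      rwa [inv_inv] at this
  refine ⟨fun g => le_antisymm ?_ ?_, hcl⟩
  · obtain ⟨l, hl, hp, hlen⟩ := hup _ g rfl
    rw [← hlen, ← hp]
    exact wordLength_le hl
  · obtain ⟨l, hl, hp, hlen⟩ := exists_word hcl g
    rw [← hlen, ← hp]
    exact hlow l hl

lemma wordLength_one {S : Finset G} : wordLength S 1 = 0 := by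
  have := wordLength_le (S := S) (l := []) (by simp)
  simpa using this

lemma wordLength_mul_le {S : Finset G} (hS : Subgroup.closure (S : Set G) = ⊤) {s : G} (x : G)
    (hs : s ∈ S ∨ s⁻¹ ∈ S) : wordLength S (s * x) ≤ wordLength S x + 1 := by
  obtain ⟨l, hl, hp, hlen⟩ := exists_word hS x
  have := wordLength_le (S := S) (l := s :: l) (by
    intro y hy
    rcases List.mem_cons.1 hy with rfl | hy
    · exact hs
    · exact hl y hy)
  rw [List.prod_cons, hp, List.length_cons, hlen] at this
  exact this

lemma exists_wordLength_eq {S : Finset G} (hS : Subgroup.closure (S : Set G) = ⊤) {x : G}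
    (hx : x ≠ 1) : ∃ s y, (s ∈ S ∨ s⁻¹ ∈ S) ∧ x = s * y ∧
      wordLength S x = wordLength S y + 1 := by
  obtain ⟨l, hl, hp, hlen⟩ := exists_word hS x
  cases l with
  | nil => exact absurd hp.symm hx
  | cons s l =>
    have hs := hl s (by simp)
    refine ⟨s, l.prod, hs, by rw [← hp, List.prod_cons], le_antisymm ?_ ?_⟩
    · rw [← hp, List.prod_cons]
      exact wordLength_mul_le hS _ hs
    · have := wordLength_le (S := S) (l := l) fun y hy => hl y (by simp [hy])
      rw [List.length_cons] at hlen
      omega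

lemma coeff_CG_apply {S : Finset G} (hS : Subgroup.closure (S : Set G) = ⊤) (n : ℕ) (h : G) :
    (PowerSeries.coeff n (CG S)).coeff h = if wordLength S h = n then 1 else 0 := by
  classical
  rw [coeff_CG hS, MonoidAlgebra.coeff_sum, Finsupp.finsetSum_apply]
  have h1 : ∀ g ∈ sphere hS n, (MonoidAlgebra.single g (1 : ℤ)).coeff h = if g = h then 1 else 0 :=
    fun g _ => by rw [MonoidAlgebra.coeff_single]; exact Finsupp.single_apply
  rw [Finset.sum_congr rfl h1, Finset.sum_ite_eq']
  simp only [mem_sphere]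

end wl

/-! ### products of groups -/

section prod
variable {G H : Type} [Group G] [Group H]

open Classical in
/-- the product generating set -/
noncomputable def prodGen (S : Finset G) (T : Finset H) : Finset (G × H) :=
  S.image (fun s => (s, 1)) ∪ T.image (fun t => (1, t))

lemma mem_prodGen {S : Finset G} {T : Finset H} {p : G × H} :
    p ∈ prodGen S T ↔ (p.1 ∈ S ∧ p.2 = 1) ∨ (p.1 = 1 ∧ p.2 ∈ T) := by
  classical
  obtain ⟨a, b⟩ := p
  simp only [prodGen, Finset.mem_union, Finset.mem_image, Prod.mk.injEq]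
  constructor
  · rintro (⟨s, hs, rfl, rfl⟩ | ⟨t, ht, rfl, rfl⟩)
    · exact Or.inl ⟨hs, rfl⟩
    · exact Or.inr ⟨rfl, ht⟩
  · rintro (⟨hs, rfl⟩ | ⟨rfl, ht⟩)
    · exact Or.inl ⟨a, hs, rfl, rfl⟩
    · exact Or.inr ⟨b, ht, rfl, rfl⟩

lemma wordLength_prodGen {S : Finset G} {T : Finset H}
    (hS : Subgroup.closure (S : Set G) = ⊤) (hT : Subgroup.closure (T : Set H) = ⊤) :
    (∀ p : G × H, wordLength (prodGen S T) p = wordLength S p.1 + wordLength T p.2) ∧
      Subgroup.closure (prodGen S T : Set (G × H)) = ⊤ := by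
  refine wordLength_eq_of (fun p : G × H => wordLength S p.1 + wordLength T p.2) ?_ ?_ ?_
  · simp [wordLength_one]
  · rintro ⟨s, t⟩ ⟨x, y⟩ hst
    rw [mem_prodGen, mem_prodGen] at hst
    simp only [Prod.fst_inv, Prod.snd_inv, inv_eq_one] at hst
    simp only [Prod.mk_mul_mk]
    have h : (t = 1 ∧ (s ∈ S ∨ s⁻¹ ∈ S)) ∨ (s = 1 ∧ (t ∈ T ∨ t⁻¹ ∈ T)) := by tauto
    rcases h with ⟨rfl, hs⟩ | ⟨rfl, ht⟩
    · have := wordLength_mul_le hS x hs
      rw [one_mul]; omega
    · have := wordLength_mul_le hT y ht
      rw [one_mul]; omega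
  · rintro ⟨x, y⟩ hxy
    by_cases hx : x = 1
    · have hy : y ≠ 1 := by rintro rfl; exact hxy (by rw [hx]; rfl)
      obtain ⟨t, y', ht, hyt, h⟩ := exists_wordLength_eq hT hy
      refine ⟨(1, t), (x, y'), ?_, by rw [hyt]; simp, by simp only; omega⟩
      rw [mem_prodGen, mem_prodGen]
      simp only [Prod.fst_inv, Prod.snd_inv, inv_one, true_and]
      tauto
    · obtain ⟨s, x', hs, hxs, h⟩ := exists_wordLength_eq hS hx
      refine ⟨(s, 1), (x', y), ?_, by rw [hxs]; simp, by simp only; omega⟩
      rw [mem_prodGen, mem_prodGen]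
      simp only [Prod.fst_inv, Prod.snd_inv, inv_one, and_true]
      tauto

lemma CG_prodGen {S : Finset G} {T : Finset H}
    (hS : Subgroup.closure (S : Set G) = ⊤) (hT : Subgroup.closure (T : Set H) = ⊤) :
    CG (prodGen S T) =
      PowerSeries.map (MonoidAlgebra.mapDomainRingHom ℤ (MonoidHom.inl G H)) (CG S) *
      PowerSeries.map (MonoidAlgebra.mapDomainRingHom ℤ (MonoidHom.inr G H)) (CG T) := by
  classical
  obtain ⟨hwl, hcl⟩ := wordLength_prodGen hS hT
  ext n : 1
  rw [PowerSeries.coeff_mul, coeff_CG hcl]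
  rw [← Finset.sum_fiberwise_of_maps_to (t := Finset.HasAntidiagonal.antidiagonal n)
    (g := fun p : G × H => (wordLength S p.1, wordLength T p.2))]
  · refine Finset.sum_congr rfl fun x hx => ?_
    have hx' := Finset.HasAntidiagonal.mem_antidiagonal.1 hx
    have hset : (sphere hcl n).filter (fun p : G × H => (wordLength S p.1, wordLength T p.2) = x) =
        sphere hS x.1 ×ˢ sphere hT x.2 := by
      ext p
      rw [Finset.mem_filter, mem_sphere, Finset.mem_product, mem_sphere, mem_sphere, hwl,
        Prod.ext_iff]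
      simp only
      constructor
      · rintro ⟨-, h⟩; exact h
      · rintro ⟨h, h'⟩; exact ⟨by omega, h, h'⟩
    rw [hset, Finset.sum_product, PowerSeries.coeff_map, PowerSeries.coeff_map, coeff_CG hS,
      coeff_CG hT, map_sum, map_sum, Finset.sum_mul_sum]
    refine Finset.sum_congr rfl fun a _ => Finset.sum_congr rfl fun b _ => ?_
    simp [MonoidAlgebra.mapDomainRingHom_apply, MonoidAlgebra.mapDomain_single,
      MonoidAlgebra.single_mul_single]
  · intro p hp
    rw [mem_sphere, hwl] at hp
    rw [Finset.HasAntidiagonal.mem_antidiagonal]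
    exact hp

lemma CG_prodGen_mem {S : Finset G} {T : Finset H}
    (hS : Subgroup.closure (S : Set G) = ⊤) (hT : Subgroup.closure (T : Set H) = ⊤)
    (h1 : CG S ∈ rationalSubring (MonoidAlgebra ℤ G))
    (h2 : CG T ∈ rationalSubring (MonoidAlgebra ℤ H)) :
    CG (prodGen S T) ∈ rationalSubring (MonoidAlgebra ℤ (G × H)) := by
  rw [CG_prodGen hS hT]
  exact Subring.mul_mem _ (map_mem_rational _ h1) (map_mem_rational _ h2)

end prod

end CGS
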