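import Pool.Agent.CGS.Ext
import Pool.Agent.CGS.Spec
import Pool.Agent.CGS.Ana

/-!
# The homomorphism `Θ` and the extraction of the extremal series
-/

namespace CGS

open Polynomial

/-- `ε` -/
noncomputable def eps : kk := algebraMap ℚ[X] kk X

lemma eps_ne : eps ≠ 0 := by
  rw [eps]
  intro h
  exact (X_ne_zero : (X : ℚ[X]) ≠ 0) (IsFractionRing.injective ℚ[X] kk (by rw [h, map_zero]))

/-- the representation of the group -/
noncomputable def Psi : Grp →* Matrix Bool Bool kk where
  toFun g := Matrix.of fun p q => if q = (p ^^ swp g) then eps ^ (cost p g) else 0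
  map_one' := by
    ext p q
    rw [Matrix.of_apply, swp_one, Bool.xor_false, cost_one, zpow_zero, Matrix.one_apply]
    by_cases h : p = q
    · rw [if_pos h, if_pos h.symm]
    · rw [if_neg h, if_neg (fun h' => h h'.symm)]
  map_mul' g h := by
    ext p q
    rw [Matrix.mul_apply, Finset.sum_eq_single (p ^^ swp g)]
    · rw [Matrix.of_apply, Matrix.of_apply, Matrix.of_apply, if_pos rfl, cost_mul,
        zpow_add₀ eps_ne, swp_mul, ← Bool.xor_assoc]
      split_ifs <;> simp
    · intro m _ hm
      rw [Matrix.of_apply, if_neg hm, zero_mul]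
    · intro h; exact absurd (Finset.mem_univ _) h

lemma Psi_apply (g : Grp) (p q : Bool) :
    Psi g p q = if q = (p ^^ swp g) then eps ^ (cost p g) else 0 := rfl

/-- the representation of the group ring -/
noncomputable def PsiA : MonoidAlgebra ℤ Grp →ₐ[ℤ] Matrix Bool Bool kk :=
  MonoidAlgebra.lift ℤ _ _ Psi

lemma PsiA_single (g : Grp) : PsiA (MonoidAlgebra.single g 1) = Psi g := by
  rw [PsiA, MonoidAlgebra.lift_single]
  rw [Algebra.smul_def, map_one, one_mul]

/-- the ring homomorphism `Θ` -/
noncomputable def Theta :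
    PowerSeries (MonoidAlgebra ℤ Grp) →+* Matrix Bool Bool (PowerSeries kk) where
  toFun F := Matrix.of fun p q =>
    PowerSeries.mk fun n => eps ^ (2 * n) * (PsiA (PowerSeries.coeff n F)) p q
  map_zero' := by
    ext p q n
    simp
  map_add' F F' := by
    ext p q n
    simp [mul_add]
  map_one' := by
    ext p q n
    rw [Matrix.of_apply, PowerSeries.coeff_mk, PowerSeries.coeff_one, Matrix.one_apply]
    by_cases hn : n = 0
    · subst hn
      rw [if_pos rfl, map_one, Matrix.one_apply]
      by_cases h : p = q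
      · rw [if_pos h, if_pos h]; simp
      · rw [if_neg h, if_neg h]; simp
    · rw [if_neg hn, map_zero]
      by_cases h : p = q
      · rw [if_pos h, PowerSeries.coeff_one, if_neg hn]; simp
      · rw [if_neg h]; simp
  map_mul' F F' := by
    ext p q n
    rw [Matrix.mul_apply, Matrix.of_apply, PowerSeries.coeff_mk, PowerSeries.coeff_mul, map_sum,
      Matrix.sum_apply, Finset.mul_sum, map_sum]
    have h1 : ∀ m : Bool, PowerSeries.coeff n
        ((Matrix.of fun p q => PowerSeries.mk fun n =>
          eps ^ (2 * n) * (PsiA (PowerSeries.coeff n F)) p q) p m *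
        (Matrix.of fun p q => PowerSeries.mk fun n =>
          eps ^ (2 * n) * (PsiA (PowerSeries.coeff n F')) p q) m q) =
        ∑ x ∈ Finset.HasAntidiagonal.antidiagonal n,
          (eps ^ (2 * x.1) * (PsiA (PowerSeries.coeff x.1 F)) p m) *
          (eps ^ (2 * x.2) * (PsiA (PowerSeries.coeff x.2 F')) m q) := by
      intro m
      rw [PowerSeries.coeff_mul]
      refine Finset.sum_congr rfl fun x _ => ?_
      rw [Matrix.of_apply, Matrix.of_apply, PowerSeries.coeff_mk, PowerSeries.coeff_mk]
    rw [Finset.sum_congr rfl fun m _ => h1 m, Finset.sum_comm]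
    refine Finset.sum_congr rfl fun x hx => ?_
    rw [map_mul, Matrix.mul_apply, Finset.mul_sum]
    refine Finset.sum_congr rfl fun m _ => ?_
    rw [← Finset.HasAntidiagonal.mem_antidiagonal.1 hx, mul_add, pow_add]
    ring

lemma Theta_coeff (F : PowerSeries (MonoidAlgebra ℤ Grp)) (p q : Bool) (n : ℕ) :
    PowerSeries.coeff n (Theta F p q) = eps ^ (2 * n) * (PsiA (PowerSeries.coeff n F)) p q := by
  rw [Theta]
  simp

lemma Theta_poly (f : Polynomial (MonoidAlgebra ℤ Grp)) (p q : Bool) :
    ∃ u : Polynomial kk, Theta (f : PowerSeries (MonoidAlgebra ℤ Grp)) p q = (u : PowerSeries kk) ∧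
      (f.coeff 0 = 0 → u.coeff 0 = 0) := by
  refine ⟨PowerSeries.trunc (f.natDegree + 1) (Theta (f : PowerSeries _) p q), ?_, ?_⟩
  · ext n
    rw [Polynomial.coeff_coe, PowerSeries.coeff_trunc]
    split_ifs with h
    · rfl
    · rw [Theta_coeff, Polynomial.coeff_coe, coeff_eq_zero_of_natDegree_lt (by omega)]
      simp
  · intro h0
    rw [PowerSeries.coeff_trunc, if_pos (by omega), Theta_coeff, Polynomial.coeff_coe, h0]
    simp

/-- The power series over `ℚ[ε]` giving the `(0,0)` entry of `Θ(CG)`. -/
noncomputable def xtil : PowerSeries ℚ[X] :=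
  PowerSeries.mk fun n => ∑ g ∈ sphere closure_S2 n,
    if swp g = false then (X : ℚ[X]) ^ (cost false g + 2 * n).toNat else 0

lemma map_xtil : PowerSeries.map (algebraMap ℚ[X] kk) xtil = Theta (CG S2) false false := by
  ext n
  rw [PowerSeries.coeff_map, xtil, PowerSeries.coeff_mk, Theta_coeff, coeff_CG closure_S2,
    map_sum, map_sum, Matrix.sum_apply, Finset.mul_sum]
  refine Finset.sum_congr rfl fun g hg => ?_
  rw [mem_sphere] at hg
  rw [PsiA_single, Psi_apply, Bool.false_xor]
  by_cases h : swp g = false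
  · rw [if_pos h, if_pos h.symm, map_pow]
    have h1 := cost_nonneg false g
    rw [hg] at h1
    rw [← zpow_natCast, Int.toNat_of_nonneg h1, zpow_add₀ (by exact eps_ne), mul_comm]
    congr 1
  · rw [if_neg h, if_neg (fun h' => h h'.symm), map_zero, mul_zero]

lemma spec_xtil : PowerSeries.map (evalRingHom 0) xtil =
    PowerSeries.mk fun n => (vv n : ℚ) := by
  classical
  ext n
  rw [PowerSeries.coeff_map, xtil, PowerSeries.coeff_mk, PowerSeries.coeff_mk, map_sum, vv, vset,
    Finset.card_filter, Nat.cast_sum]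
  refine Finset.sum_congr rfl fun g hg => ?_
  rw [mem_sphere] at hg
  have h1 := cost_nonneg false g
  rw [hg] at h1
  by_cases h : swp g = false
  · rw [if_pos h, map_pow]
    by_cases h2 : cost false g + 2 * n = 0
    · rw [if_pos ⟨h, h2⟩, h2]; simp
    · rw [if_neg (fun h' => h2 h'.2)]
      have h3 : (cost false g + 2 * (n : ℤ)).toNat ≠ 0 := by omega
      rw [coe_evalRingHom, eval_X, zero_pow h3]
      simp
  · rw [if_neg h, if_neg (fun h' => h h'.1)]
    simp

/-- The `(0,0)` entry of `Θ(CG)` is transcendental. -/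
theorem Theta_CG_transcendental (P : kk[X][X]) (hP : P ≠ 0)
    (h : P.eval₂ (coeToPowerSeries.ringHom) (Theta (CG S2) false false) = 0) : False := by
  rw [← map_xtil] at h
  obtain ⟨P0, h1, h2⟩ := specialise xtil P hP h
  rw [spec_xtil] at h2
  exact transcendental_of_bounds vv_lower vv_upper P0 h1 h2

end CGS
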